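import Mathlib

set_option autoImplicit false

namespace Pool.Agent.X304.Ell

/-- in the region where `τ ≤ 0` critical points are minima -/
lemma alg2 (a c D x η : ℝ) (ha : 0 < a) (hd : 0 < a + D) (hδ : 0 < a * (a + D) - c ^ 2)
    (hη : 0 < η) (hηc : η + c ≤ 0)
    (hG : η ^ 2 + c * η + (c ^ 2 - a * D + a * c * x) = 0) :
    η * (η + c) ^ 2 + a ^ 2 * (c * (1 - x ^ 2) + x * D) < 0 := by
  obtain ⟨g, rfl⟩ : ∃ g : ℝ, c = -g := ⟨-c, by ring⟩
  have hg : 0 < g := by linarith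
  have hge : 0 ≤ g - η := by linarith
  have key : g ^ 3 * (η * (η + -g) ^ 2 + a ^ 2 * (-g * (1 - x ^ 2) + x * D))
      = - (a * η * (g - η) * (a * g ^ 2 + (a + D) * η ^ 2)
        + (a * (a + D) - g ^ 2) * (g ^ 3 * (g - η) + g * η ^ 2 * (g - η) + η ^ 4)) := by
    linear_combination g ^ 2 * ((η ^ 2 + -g * η + ((-g) ^ 2 - a * D + a * -g * x))
      - 2 * (g ^ 2 - g * η + η ^ 2) + a * D) * hG
  have h1 : 0 ≤ a * η * (g - η) * (a * g ^ 2 + (a + D) * η ^ 2) := by positivity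
  have h2 : 0 < (a * (a + D) - g ^ 2) * (g ^ 3 * (g - η) + g * η ^ 2 * (g - η) + η ^ 4) := by
    apply mul_pos
    · have : (-g) ^ 2 = g ^ 2 := by ring
      linarith [this]
    · positivity
  have h3 : g ^ 3 * (η * (η + -g) ^ 2 + a ^ 2 * (-g * (1 - x ^ 2) + x * D)) < 0 := by
    rw [key]; linarith
  by_contra hcon
  push Not at hcon
  have := mul_nonneg (pow_pos hg 3).le hcon
  linarith

/-- derivative of `J` along the critical curve at a zero of `J` -/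
lemma alg3 (a c D x η η' β : ℝ) 
    (hη' : (2 * η + c) * η' + (D * η
      + (4 * a * c + 2 * c ^ 2 * x + a * D * x - a * c * (1 + x ^ 2))) = 0)
    (hβ : a ^ 2 * β + η * (η + c) ^ 2 = 0)
    (hD : a * D - (η ^ 2 + c * η + c ^ 2) - a * c * x = 0)
    (hJ : a * x * (η ^ 2 + c * η + c ^ 2) + a ^ 2 * c + η * (η + c) ^ 2 = 0) :
    a * (2 * η + c) * (η ^ 2 + c * η + c ^ 2) *
      (η' * (η + c) ^ 2 + 2 * η * (η + c) * (η' + D) + 4 * a * c * β - 2 * a ^ 2 * β * x)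
      = - (5 * c * η * (η + c) ^ 2 * (2 * η + c) * (a ^ 2 + η ^ 2)) := by
  linear_combination (a * (η ^ 2 + c * η + c ^ 2) * (η + c) * (3 * η + c)) * hη'
    + ((4 * c - 2 * a * x) * (2 * η + c) * (η ^ 2 + c * η + c ^ 2)) * hβ
    + (-(η ^ 2 + c * η + c ^ 2) * (η + c) * (3 * η + c) * (η + a * x)
      + 2 * η * (η + c) * (2 * η + c) * (η ^ 2 + c * η + c ^ 2)) * hD
    + ((η + c) * (η ^ 3 + 3 * c * η ^ 2 - 7 * c ^ 2 * η - 3 * c ^ 3)) * hJ

/-- derivative of `E` along the critical curve -/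
lemma alg4 (a c D x η η' : ℝ)
    (hη' : (2 * η + c) * η' + (D * η
      + (4 * a * c + 2 * c ^ 2 * x + a * D * x - a * c * (1 + x ^ 2))) = 0)
    (hG : η ^ 2 + c * η + (c ^ 2 - a * D + a * c * x) = 0) :
    (2 * η + c) * ((2 * c + a * x) * η - a * η' + η ^ 2)
      = 3 * (η * (η + c) ^ 2 + a ^ 2 * (c * (1 - x ^ 2) + x * D)) := by
  linear_combination (-a) * hη' + (2 * a * x - η) * hG

end Pool.Agent.X304.Ell
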