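import Pool.Agent.X304.Ell.Count

set_option autoImplicit false

namespace Pool.Agent.X304.Ell

open Set Real

noncomputable section

variable (n₁ n₂ e : ℝ)

def nu (v : ℝ) : ℝ := n₁ * cos v + n₂ * sin v
def mu (v : ℝ) : ℝ := - n₁ * sin v + n₂ * cos v
def fa (v : ℝ) : ℝ := 1 - nu n₁ n₂ v ^ 2
def fc (v : ℝ) : ℝ := - (nu n₁ n₂ v * mu n₁ n₂ v)
def fD (v : ℝ) : ℝ := nu n₁ n₂ v ^ 2 - mu n₁ n₂ v ^ 2
/-- `cot` -/
def xi (v : ℝ) : ℝ := cos v / sin v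
def fl (v : ℝ) : ℝ :=
  fc n₁ n₂ v ^ 2 - fa n₁ n₂ v * fD n₁ n₂ v + fa n₁ n₂ v * fc n₁ n₂ v * xi v
def zz (v : ℝ) : ℝ := (1 + e * cos v) / (e * sin v)
def et (v : ℝ) : ℝ := fa n₁ n₂ v * (e * sin v) / (1 + e * cos v)
def fG (v : ℝ) : ℝ := et n₁ n₂ e v ^ 2 + fc n₁ n₂ v * et n₁ n₂ e v + fl n₁ n₂ v
def hh (v : ℝ) : ℝ := fa n₁ n₂ v + fc n₁ n₂ v * zz e v
def tau (v : ℝ) : ℝ := (1 + e * cos v) * hh n₁ n₂ e v / √(fa n₁ n₂ v)
def fJ (η v : ℝ) : ℝ :=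
  η * (η + fc n₁ n₂ v) ^ 2 + fa n₁ n₂ v ^ 2 * (n₁ * n₂) / sin v ^ 2

/-- derivative of `fl` -/
def fl' (v : ℝ) : ℝ :=
  4 * fa n₁ n₂ v * fc n₁ n₂ v + 2 * fc n₁ n₂ v ^ 2 * xi v + fa n₁ n₂ v * fD n₁ n₂ v * xi v
    - fa n₁ n₂ v * fc n₁ n₂ v * (1 + xi v ^ 2)

variable {n₁ n₂ e}

lemma hasDerivAt_nu (n₁ n₂ v : ℝ) : HasDerivAt (nu n₁ n₂) (mu n₁ n₂ v) v := by
  have h := ((hasDerivAt_cos v).const_mul n₁).add ((hasDerivAt_sin v).const_mul n₂)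
  refine HasDerivAt.congr_deriv h ?_
  unfold mu; ring

lemma hasDerivAt_mu (n₁ n₂ v : ℝ) : HasDerivAt (mu n₁ n₂) (- nu n₁ n₂ v) v := by
  have h := ((hasDerivAt_sin v).const_mul (-n₁)).add ((hasDerivAt_cos v).const_mul n₂)
  refine HasDerivAt.congr_deriv h ?_
  unfold nu; ring

lemma hasDerivAt_fa (n₁ n₂ v : ℝ) : HasDerivAt (fa n₁ n₂) (2 * fc n₁ n₂ v) v := by
  have h := ((hasDerivAt_nu n₁ n₂ v).pow 2).const_sub 1
  refine HasDerivAt.congr_deriv h ?_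
  unfold fc; push_cast; ring

lemma hasDerivAt_fc (n₁ n₂ v : ℝ) : HasDerivAt (fc n₁ n₂) (fD n₁ n₂ v) v := by
  have h := ((hasDerivAt_nu n₁ n₂ v).mul (hasDerivAt_mu n₁ n₂ v)).neg
  refine HasDerivAt.congr_deriv h ?_
  unfold fD; ring

lemma hasDerivAt_fD (n₁ n₂ v : ℝ) : HasDerivAt (fD n₁ n₂) (-4 * fc n₁ n₂ v) v := by
  have h := ((hasDerivAt_nu n₁ n₂ v).pow 2).sub ((hasDerivAt_mu n₁ n₂ v).pow 2)
  refine HasDerivAt.congr_deriv h ?_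
  unfold fc; push_cast; ring

lemma xi_sq {v : ℝ} (hs : sin v ≠ 0) : 1 / sin v ^ 2 = 1 + xi v ^ 2 := by
  unfold xi
  field_simp
  linarith [sin_sq_add_cos_sq v]

lemma hasDerivAt_xi {v : ℝ} (hs : sin v ≠ 0) : HasDerivAt xi (-(1 + xi v ^ 2)) v := by
  have h := (hasDerivAt_cos v).div (hasDerivAt_sin v) hs
  refine HasDerivAt.congr_deriv h ?_
  unfold xi
  field_simp
  ring

lemma hasDerivAt_fl (n₁ n₂ : ℝ) {v : ℝ} (hs : sin v ≠ 0) : HasDerivAt (fl n₁ n₂) (fl' n₁ n₂ v) v := by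
  have h := (((hasDerivAt_fc n₁ n₂ v).pow 2).sub
    ((hasDerivAt_fa n₁ n₂ v).mul (hasDerivAt_fD n₁ n₂ v))).add
    (((hasDerivAt_fa n₁ n₂ v).mul (hasDerivAt_fc n₁ n₂ v)).mul (hasDerivAt_xi hs))
  refine HasDerivAt.congr_deriv h ?_
  unfold fl'
  simp only [Pi.mul_apply]
  push_cast
  ring

/-- the constant `n₁ n₂` -/
lemma const_B {v : ℝ} (hs : sin v ≠ 0) :
    n₁ * n₂ / sin v ^ 2 = fc n₁ n₂ v * (1 - xi v ^ 2) + xi v * fD n₁ n₂ v := by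
  have h1 := sin_sq_add_cos_sq v
  have h2 : n₁ * n₂ = sin v * cos v * fD n₁ n₂ v - fc n₁ n₂ v * (cos v ^ 2 - sin v ^ 2) := by
    unfold fD fc nu mu
    linear_combination (-(n₁ * n₂) * (sin v ^ 2 + cos v ^ 2) - n₁ * n₂) * h1
  rw [h2]
  unfold xi
  field_simp
  ring

/-- `l / sin²` has derivative `3 a B / sin⁴` -/
lemma hasDerivAt_fl_div {v : ℝ} (hs : sin v ≠ 0) :
    HasDerivAt (fun x => fl n₁ n₂ x / sin x ^ 2) (3 * fa n₁ n₂ v * (n₁ * n₂) / sin v ^ 4) v := by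
  have h := (hasDerivAt_fl n₁ n₂ hs).div ((hasDerivAt_sin v).pow 2)
    (pow_ne_zero 2 hs)
  refine HasDerivAt.congr_deriv h ?_
  have h1 : 3 * fa n₁ n₂ v * (n₁ * n₂) / sin v ^ 4
      = 3 * fa n₁ n₂ v * (n₁ * n₂ / sin v ^ 2) / sin v ^ 2 := by
    field_simp
  rw [h1, const_B (n₁ := n₁) (n₂ := n₂) hs]
  unfold fl' fl
  have h2 : cos v = xi v * sin v := by unfold xi; field_simp
  simp only [Pi.pow_apply]
  push_cast
  rw [h2]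
  field_simp
  ring

lemma hasDerivAt_et {v : ℝ} (hs : sin v ≠ 0) (hw : 1 + e * cos v ≠ 0) (ha : fa n₁ n₂ v ≠ 0) :
    HasDerivAt (et n₁ n₂ e) (et n₁ n₂ e v / fa n₁ n₂ v *
      (et n₁ n₂ e v + 2 * fc n₁ n₂ v + fa n₁ n₂ v * xi v)) v := by
  have h := ((hasDerivAt_fa n₁ n₂ v).mul ((hasDerivAt_sin v).const_mul e)).div
    (((hasDerivAt_cos v).const_mul e).const_add 1) hw
  refine HasDerivAt.congr_deriv h ?_
  unfold et xi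
  simp only [Pi.mul_apply]
  field_simp
  ring

lemma hasDerivAt_fG {v : ℝ} (hs : sin v ≠ 0) (hw : 1 + e * cos v ≠ 0) (ha : fa n₁ n₂ v ≠ 0) :
    HasDerivAt (fG n₁ n₂ e) ((2 * et n₁ n₂ e v + fc n₁ n₂ v) * (et n₁ n₂ e v / fa n₁ n₂ v *
      (et n₁ n₂ e v + 2 * fc n₁ n₂ v + fa n₁ n₂ v * xi v)) + fD n₁ n₂ v * et n₁ n₂ e v
      + fl' n₁ n₂ v) v := by
  have h0 := hasDerivAt_et (n₁ := n₁) (n₂ := n₂) (e := e) hs hw ha
  have h := ((h0.pow 2).add ((hasDerivAt_fc n₁ n₂ v).mul h0)).add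
    (hasDerivAt_fl n₁ n₂ hs)
  refine HasDerivAt.congr_deriv h ?_
  push_cast
  ring

/-- algebra behind the first elimination -/
lemma alg1 (a c D x η : ℝ) (ha : a ≠ 0)
    (hG : η ^ 2 + c * η + (c ^ 2 - a * D + a * c * x) = 0) :
    (2 * η + c) * (η / a * (η + 2 * c + a * x)) + D * η
      + (4 * a * c + 2 * c ^ 2 * x + a * D * x - a * c * (1 + x ^ 2))
      = 3 / a * (η * (η + c) ^ 2 + a ^ 2 * (c * (1 - x ^ 2) + x * D)) := by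
  field_simp
  linear_combination (2 * a * x - η) * hG

/-- at a zero of `G` the derivative is `3 J / a` -/
lemma hasDerivAt_fG_zero {v : ℝ} (hs : sin v ≠ 0) (hw : 1 + e * cos v ≠ 0)
    (ha : fa n₁ n₂ v ≠ 0) (h0 : fG n₁ n₂ e v = 0) :
    HasDerivAt (fG n₁ n₂ e) (3 / fa n₁ n₂ v * fJ n₁ n₂ (et n₁ n₂ e v) v) v := by
  have h := hasDerivAt_fG (n₁ := n₁) (n₂ := n₂) hs hw ha
  have h1 := alg1 (fa n₁ n₂ v) (fc n₁ n₂ v) (fD n₁ n₂ v) (xi v) (et n₁ n₂ e v) ha (by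
    unfold fG fl at h0
    exact h0)
  refine HasDerivAt.congr_deriv h ?_
  unfold fl' fJ
  rw [h1, mul_div_assoc, const_B hs]

lemma hasDerivAt_tau {v : ℝ} (he : e ≠ 0) (hs : sin v ≠ 0) (hw : 1 + e * cos v ≠ 0)
    (ha : 0 < fa n₁ n₂ v) :
    HasDerivAt (tau n₁ n₂ e)
      (- ((1 + e * cos v) * zz e v * fG n₁ n₂ e v / (fa n₁ n₂ v * √(fa n₁ n₂ v)))) v := by
  have hsq : √(fa n₁ n₂ v) ≠ 0 := (sqrt_pos.2 ha).ne'
  have hwd : HasDerivAt (fun x => 1 + e * cos x) (e * (- sin v)) v :=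
    ((hasDerivAt_cos v).const_mul e).const_add 1
  have hzd := hwd.div ((hasDerivAt_sin v).const_mul e) (mul_ne_zero he hs)
  have hhd := (hasDerivAt_fa n₁ n₂ v).add ((hasDerivAt_fc n₁ n₂ v).mul hzd)
  have h := (hwd.mul hhd).div ((hasDerivAt_fa n₁ n₂ v).sqrt ha.ne') hsq
  refine HasDerivAt.congr_deriv h ?_
  have hs2 : √(fa n₁ n₂ v) ^ 2 = fa n₁ n₂ v := sq_sqrt ha.le
  simp only [Pi.add_apply, Pi.mul_apply, Pi.div_apply]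
  unfold fG fl zz et xi
  have ha' := ha.ne'
  generalize fa n₁ n₂ v = a at *
  generalize fc n₁ n₂ v = c at *
  generalize fD n₁ n₂ v = D at *
  generalize cos v = C at *
  generalize sin v = S at *
  generalize √a = r at *
  subst hs2
  field_simp
  ring

end

end Pool.Agent.X304.Ell
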