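import Pool.Agent.X304.Ell.Neg2

set_option autoImplicit false

namespace Pool.Agent.X304.Ell

open Set Real

variable {n₁ n₂ e : ℝ}

lemma AtMost.preimage {k : ℕ} {s : Set ℝ} (h : AtMost k s) {g : ℝ → ℝ}
    (hg : Function.Injective g) : AtMost k (g ⁻¹' s) := by
  classical
  intro t ht
  have h1 := h (t.image g) (by
    intro x hx
    rw [Finset.coe_image] at hx
    obtain ⟨y, hy, rfl⟩ := hx
    exact ht hy)
  rwa [Finset.card_image_of_injective _ hg] at h1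

/-! ### the symmetric cases `n₁ n₂ = 0` -/

lemma half_zero2 (he0 : 0 < e) (he1 : e < 1) (hn : n₁ ^ 2 + n₂ ^ 2 < 1) (h2 : n₂ = 0) (T : ℝ) :
    AtMost 1 {v | v ∈ Ioo 0 π ∧ tau n₁ n₂ e v = T} := by
  apply tau_atMost (k := 0) he0 he1 hn
  apply atMost_zero_of_forall
  rintro v ⟨hv, h0⟩
  have h1 := et_pos he0 he1 hn hv
  have h3 := fa_pos hn v
  have h4 := sin_pos' hv
  have h5 : fl n₁ n₂ v = fc n₁ n₂ v ^ 2 + fa n₁ n₂ v * n₁ ^ 2 * sin v ^ 2 := by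
    unfold fl fD fc xi nu mu
    rw [h2]
    field_simp
    ring
  unfold fG at h0
  rw [h5] at h0
  have h6 : 0 ≤ fa n₁ n₂ v * n₁ ^ 2 * sin v ^ 2 := by positivity
  nlinarith [sq_nonneg (et n₁ n₂ e v + 2 * fc n₁ n₂ v), mul_pos h1 h1]

lemma fl_zero1 (hn : n₁ ^ 2 + n₂ ^ 2 < 1) (h1 : n₁ = 0) (h2 : n₂ ≠ 0) {v : ℝ}
    (hv : v ∈ Ioo 0 π) : fl n₁ n₂ v < 0 := by
  have h4 := sin_pos' hv
  have h5 : fl n₁ n₂ v = - (n₂ ^ 2 * sin v ^ 2 * (1 - n₂ ^ 2)) := by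
    have hx : fc n₁ n₂ v * xi v = - n₂ ^ 2 * cos v ^ 2 := by
      unfold fc xi nu mu
      rw [h1]
      field_simp
      ring
    have hfl : fl n₁ n₂ v = fc n₁ n₂ v ^ 2 - fa n₁ n₂ v * fD n₁ n₂ v
        + fa n₁ n₂ v * (fc n₁ n₂ v * xi v) := by unfold fl; ring
    rw [hfl, hx]
    unfold fD fc fa nu mu
    rw [h1]
    linear_combination (n₂ ^ 4 * sin v ^ 2) * (sin_sq_add_cos_sq v)
  rw [h5]
  have h6 : 0 < n₂ ^ 2 := by positivity
  have h7 : 0 < 1 - n₂ ^ 2 := by rw [h1] at hn; linarith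
  have : 0 < n₂ ^ 2 * sin v ^ 2 * (1 - n₂ ^ 2) := by positivity
  linarith

lemma add_pos_of_zero (he0 : 0 < e) (he1 : e < 1) (hn : n₁ ^ 2 + n₂ ^ 2 < 1)
    {v : ℝ} (hv : v ∈ Ioo 0 π) (hl : fl n₁ n₂ v < 0) (h0 : fG n₁ n₂ e v = 0) :
    0 < et n₁ n₂ e v + fc n₁ n₂ v := by
  have h1 := et_pos he0 he1 hn hv
  by_contra hcon
  push Not at hcon
  have := mul_nonpos_of_nonneg_of_nonpos h1.le hcon
  unfold fG at h0
  nlinarith

lemma half_zero1 (he0 : 0 < e) (he1 : e < 1) (hn : n₁ ^ 2 + n₂ ^ 2 < 1) (h1 : n₁ = 0)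
    (h2 : n₂ ≠ 0) (T : ℝ) : AtMost 2 {v | v ∈ Ioo 0 π ∧ tau n₁ n₂ e v = T} := by
  apply tau_atMost (k := 1) he0 he1 hn
  apply upcross_atMost (fun x hx => hasDerivAt_gd he0 he1 hn hx)
  intro v hv h0
  rw [gd_zero he0 he1 hn hv h0]
  have h3 := fa_pos hn v
  have h4 := et_pos he0 he1 hn hv
  have h5 := sin_pos' hv
  have h6 := add_pos_of_zero he0 he1 hn hv (fl_zero1 hn h1 h2 hv) h0
  have h7 : fJ n₁ n₂ (et n₁ n₂ e v) v = et n₁ n₂ e v * (et n₁ n₂ e v + fc n₁ n₂ v) ^ 2 := by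
    unfold fJ
    rw [h1]
    ring
  rw [h7]
  positivity

lemma half_zero1_T (he0 : 0 < e) (he1 : e < 1) (hn : n₁ ^ 2 + n₂ ^ 2 < 1) (h1 : n₁ = 0)
    (h2 : n₂ ≠ 0) {T : ℝ} (hT : T < 0) : AtMost 1 {v | v ∈ Ioo 0 π ∧ tau n₁ n₂ e v = T} := by
  apply atMost_one
  rintro x ⟨hx, hx0⟩ y ⟨hy, hy0⟩ hxy
  have hsub : Icc x y ⊆ Ioo 0 π := fun t ht =>
    ⟨lt_of_lt_of_le hx.1 ht.1, lt_of_le_of_lt ht.2 hy.2⟩
  obtain ⟨c, hc1, hc2⟩ := exists_hasDerivAt_eq_zero (f := tau n₁ n₂ e) (f' := tau' n₁ n₂ e) hxy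
    (fun t ht => (hasDerivAt_tau' he0 he1 hn (hsub ht)).continuousAt.continuousWithinAt)
    (hx0.trans hy0.symm)
    (fun t ht => hasDerivAt_tau' he0 he1 hn (hsub (Ioo_subset_Icc_self ht)))
  have hc := hsub (Ioo_subset_Icc_self hc1)
  have hG := (tau'_zero_iff he0 he1 hn hc).1 hc2
  have h3 := stay_pos he0 he1 hn hc hy hc1.2
    (fun t ht => fl_zero1 hn h1 h2 ⟨hc.1.trans_le ht.1, ht.2⟩)
    (add_pos_of_zero he0 he1 hn hc (fl_zero1 hn h1 h2 hc) hG)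
  have h4 := (tau_pos_iff he0 he1 hn hy).2 h3
  linarith

/-- combined bound on one half, `n₁ n₂ = 0` -/
lemma half_zero (he0 : 0 < e) (he1 : e < 1) (hn : n₁ ^ 2 + n₂ ^ 2 < 1) (hB : n₁ * n₂ = 0)
    (T : ℝ) : AtMost 2 {v | v ∈ Ioo 0 π ∧ tau n₁ n₂ e v = T} := by
  by_cases h2 : n₂ = 0
  · exact (half_zero2 he0 he1 hn h2 T).mono le_rfl (by norm_num)
  · have h1 : n₁ = 0 := by
      rcases mul_eq_zero.1 hB with h | h
      · exact h
      · exact absurd h h2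
    exact half_zero1 he0 he1 hn h1 h2 T

lemma half_zero_T (he0 : 0 < e) (he1 : e < 1) (hn : n₁ ^ 2 + n₂ ^ 2 < 1) (hB : n₁ * n₂ = 0)
    {T : ℝ} (hT : T < 0) : AtMost 1 {v | v ∈ Ioo 0 π ∧ tau n₁ n₂ e v = T} := by
  by_cases h2 : n₂ = 0
  · exact half_zero2 he0 he1 hn h2 T
  · have h1 : n₁ = 0 := by
      rcases mul_eq_zero.1 hB with h | h
      · exact h
      · exact absurd h h2
    exact half_zero1_T he0 he1 hn h1 h2 hT

/-! ### the whole circle -/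

/-- the stationarity function -/
noncomputable def bb (n₁ n₂ e v : ℝ) : ℝ :=
  e * sin v * fa n₁ n₂ v + (1 + e * cos v) * fc n₁ n₂ v

/-- solutions on the circle, `σ T` with sign `σ` -/
def Zc (n₁ n₂ e T : ℝ) : Set ℝ :=
  {v | v ∈ Ico 0 (2 * π) ∧ T * (e * sin v * √(fa n₁ n₂ v)) = (1 + e * cos v) * bb n₁ n₂ e v}

lemma upper_iff (he0 : 0 < e) (he1 : e < 1) (hn : n₁ ^ 2 + n₂ ^ 2 < 1) {v T : ℝ}
    (hv : v ∈ Ioo 0 π) (h : T * (e * sin v * √(fa n₁ n₂ v)) = (1 + e * cos v) * bb n₁ n₂ e v) :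
    tau n₁ n₂ e v = T := by
  have h1 := fa_pos hn v
  have h2 := sqrt_pos.2 h1
  have h3 := sin_pos' hv
  have h4 := w_pos he0 he1 v
  have he := he0.ne'
  have h5 : bb n₁ n₂ e v = e * sin v * hh n₁ n₂ e v := by
    unfold bb hh zz
    field_simp
  unfold tau
  rw [div_eq_iff h2.ne']
  rw [h5] at h
  have h6 : (e * sin v) ≠ 0 := by positivity
  apply mul_left_cancel₀ h6
  linarith

lemma lower_iff (he0 : 0 < e) (he1 : e < 1) (hn : n₁ ^ 2 + n₂ ^ 2 < 1) {v T : ℝ}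
    (hv : v ∈ Ioo π (2 * π))
    (h : T * (e * sin v * √(fa n₁ n₂ v)) = (1 + e * cos v) * bb n₁ n₂ e v) :
    tau n₁ (-n₂) e (2 * π - v) = T := by
  have hv' : 2 * π - v ∈ Ioo 0 π := ⟨by linarith [hv.2], by linarith [hv.1]⟩
  apply upper_iff he0 he1 (by simpa using hn) hv'
  have hs : sin (2 * π - v) = - sin v := sin_two_pi_sub v
  have hc : cos (2 * π - v) = cos v := cos_two_pi_sub v
  have h1 : nu n₁ (-n₂) (2 * π - v) = nu n₁ n₂ v := by
    unfold nu; rw [hs, hc]; ring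
  have h2 : mu n₁ (-n₂) (2 * π - v) = - mu n₁ n₂ v := by
    unfold mu; rw [hs, hc]; ring
  have h3 : fa n₁ (-n₂) (2 * π - v) = fa n₁ n₂ v := by unfold fa; rw [h1]
  have h4 : fc n₁ (-n₂) (2 * π - v) = - fc n₁ n₂ v := by unfold fc; rw [h1, h2]; ring
  unfold bb at h ⊢
  rw [h3, h4, hs, hc]
  linarith

lemma Zc_subset (he0 : 0 < e) (he1 : e < 1) (hn : n₁ ^ 2 + n₂ ^ 2 < 1) (T : ℝ) :
    Zc n₁ n₂ e T ⊆ ({v | v ∈ Ioo 0 π ∧ tau n₁ n₂ e v = T} ∪
      (fun v => 2 * π - v) ⁻¹' {v | v ∈ Ioo 0 π ∧ tau n₁ (-n₂) e v = T}) ∪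
      {v | (v = 0 ∨ v = π) ∧ n₁ * n₂ = 0} := by
  rintro v ⟨hv, h⟩
  rcases hv.1.eq_or_lt with h0 | h0
  · right
    refine ⟨Or.inl h0.symm, ?_⟩
    rw [← h0] at h
    unfold bb fc nu mu at h
    simp only [sin_zero, cos_zero, mul_zero, mul_one, add_zero, zero_mul, zero_add] at h
    have h1 : (1 + e) ≠ 0 := by positivity
    have h2 : (1 + e) ^ 2 * (n₁ * n₂) = 0 := by linarith
    rcases mul_eq_zero.1 h2 with h3 | h3
    · exact absurd h3 (pow_ne_zero 2 h1)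
    · exact h3
  · rcases lt_trichotomy v π with h1 | h1 | h1
    · exact Or.inl (Or.inl ⟨⟨h0, h1⟩, upper_iff he0 he1 hn ⟨h0, h1⟩ h⟩)
    · right
      refine ⟨Or.inr h1, ?_⟩
      rw [h1] at h
      unfold bb fc nu mu at h
      simp only [sin_pi, cos_pi, mul_zero, mul_one, add_zero, zero_mul, zero_add] at h
      have h1 : (1 - e) ≠ 0 := by linarith
      have h2 : (1 - e) ^ 2 * (n₁ * n₂) = 0 := by linarith
      rcases mul_eq_zero.1 h2 with h3 | h3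
      · exact absurd h3 (pow_ne_zero 2 h1)
      · exact h3
    · left; right
      refine ⟨⟨by linarith [hv.2], by linarith⟩, lower_iff he0 he1 hn ⟨h1, hv.2⟩ h⟩

lemma atMost_ends : AtMost 2 {v : ℝ | (v = 0 ∨ v = π) ∧ n₁ * n₂ = 0} := by
  refine ((atMost_singleton 0).union (atMost_singleton π)).mono ?_ (by norm_num)
  rintro v ⟨h | h, _⟩
  · left; exact h
  · right; exact h

lemma atMost_ends' (hB : n₁ * n₂ ≠ 0) : AtMost 0 {v : ℝ | (v = 0 ∨ v = π) ∧ n₁ * n₂ = 0} := by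
  apply atMost_zero_of_forall
  rintro v ⟨_, h⟩
  exact hB h

lemma inj_refl : Function.Injective (fun v : ℝ => 2 * π - v) := by
  intro x y h
  simp only at h
  linarith

theorem circle_pos (he0 : 0 < e) (he1 : e < 1) (hn : n₁ ^ 2 + n₂ ^ 2 < 1) (T : ℝ) :
    AtMost 6 (Zc n₁ n₂ e T) := by
  have hn' : n₁ ^ 2 + (-n₂) ^ 2 < 1 := by simpa using hn
  rcases lt_trichotomy (n₁ * n₂) 0 with h | h | h
  · refine (((half_neg he0 he1 hn h T).union
      ((half_pos he0 he1 hn' (by linarith) T).preimage inj_refl)).union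
      (atMost_ends' h.ne)).mono (Zc_subset he0 he1 hn T) (by norm_num)
  · refine (((half_zero he0 he1 hn h T).union
      ((half_zero he0 he1 hn' (by linarith) T).preimage inj_refl)).union
      atMost_ends).mono (Zc_subset he0 he1 hn T) (by norm_num)
  · refine (((half_pos he0 he1 hn h T).union
      ((half_neg he0 he1 hn' (by linarith) T).preimage inj_refl)).union
      (atMost_ends' h.ne')).mono (Zc_subset he0 he1 hn T) (by norm_num)

theorem circle_neg (he0 : 0 < e) (he1 : e < 1) (hn : n₁ ^ 2 + n₂ ^ 2 < 1) {T : ℝ} (hT : T < 0) :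
    AtMost 4 (Zc n₁ n₂ e T) := by
  have hn' : n₁ ^ 2 + (-n₂) ^ 2 < 1 := by simpa using hn
  rcases lt_trichotomy (n₁ * n₂) 0 with h | h | h
  · refine (((half_neg_T he0 he1 hn h hT).union
      ((half_pos he0 he1 hn' (by linarith) T).preimage inj_refl)).union
      (atMost_ends' h.ne)).mono (Zc_subset he0 he1 hn T) (by norm_num)
  · refine (((half_zero_T he0 he1 hn h hT).union
      ((half_zero_T he0 he1 hn' (by linarith) hT).preimage inj_refl)).union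
      atMost_ends).mono (Zc_subset he0 he1 hn T) (by norm_num)
  · refine (((half_pos he0 he1 hn h T).union
      ((half_neg_T he0 he1 hn' (by linarith) hT).preimage inj_refl)).union
      (atMost_ends' h.ne')).mono (Zc_subset he0 he1 hn T) (by norm_num)

end Pool.Agent.X304.Ell
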