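import Mathlib

set_option autoImplicit false

namespace Pool.Agent.X304.Ell

open Set

/-- `s` has at most `k` elements -/
def AtMost (k : ℕ) (s : Set ℝ) : Prop := ∀ t : Finset ℝ, (t : Set ℝ) ⊆ s → t.card ≤ k

lemma AtMost.mono {k l : ℕ} {s t : Set ℝ} (h : AtMost k t) (hs : s ⊆ t) (hk : k ≤ l) :
    AtMost l s := fun f hf => (h f (hf.trans hs)).trans hk

lemma AtMost.finite {k : ℕ} {s : Set ℝ} (h : AtMost k s) : s.Finite := by
  by_contra hinf
  obtain ⟨t, ht, hc⟩ := Set.Infinite.exists_subset_card_eq hinf (k + 1)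
  have := h t ht
  omega

lemma AtMost.ncard {k : ℕ} {s : Set ℝ} (h : AtMost k s) : s.ncard ≤ k := by
  have hf := h.finite
  rw [Set.ncard_eq_toFinset_card s hf]
  exact h _ (by simp)

lemma AtMost.union {k l : ℕ} {s t : Set ℝ} (h : AtMost k s) (h' : AtMost l t) :
    AtMost (k + l) (s ∪ t) := by
  classical
  intro f hf
  have h1 : (f.filter (· ∈ s)).card ≤ k := h _ (by
    intro x hx
    simp only [Finset.coe_filter, Set.mem_ofPred_eq] at hx
    exact hx.2)
  have h2 : (f.filter (fun x => ¬ x ∈ s)).card ≤ l := h' _ (by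
    intro x hx
    simp only [Finset.coe_filter, Set.mem_ofPred_eq] at hx
    rcases hf (Finset.mem_coe.2 hx.1) with h3 | h3
    · exact absurd h3 hx.2
    · exact h3)
  have h3 := Finset.card_filter_add_card_filter_not (s := f) (p := (· ∈ s))
  omega

lemma atMost_zero_of_forall {s : Set ℝ} (h : ∀ x, x ∉ s) : AtMost 0 s := by
  intro t ht
  rw [Nat.le_zero, Finset.card_eq_zero]
  apply Finset.eq_empty_of_forall_notMem
  intro x hx
  exact h x (ht (Finset.mem_coe.2 hx))

lemma atMost_one {s : Set ℝ} (h : ∀ x ∈ s, ∀ y ∈ s, ¬ x < y) : AtMost 1 s := by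
  intro t ht
  rw [Finset.card_le_one]
  intro x hx y hy
  rcases lt_trichotomy x y with h1 | h1 | h1
  · exact absurd h1 (h x (ht hx) y (ht hy))
  · exact h1
  · exact absurd h1 (h y (ht hy) x (ht hx))

lemma atMost_singleton (x : ℝ) : AtMost 1 {x} := by
  apply atMost_one
  intro a ha b hb
  simp only [mem_singleton_iff] at ha hb
  rw [ha, hb]
  exact lt_irrefl _

/-- three ordered elements are excluded: at most two -/
lemma atMost_two {s : Set ℝ} (h : ∀ x ∈ s, ∀ y ∈ s, ∀ z ∈ s, x < y → ¬ y < z) :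
    AtMost 2 s := by
  intro t ht
  by_contra hc
  push Not at hc
  obtain ⟨u, hu, hcu⟩ := Finset.exists_subset_card_eq (Nat.succ_le_of_lt hc)
  let e := u.orderEmbOfFin hcu
  have h0 : e 0 ∈ s := ht (Finset.mem_coe.2 (hu (Finset.orderEmbOfFin_mem u hcu 0)))
  have h1 : e 1 ∈ s := ht (Finset.mem_coe.2 (hu (Finset.orderEmbOfFin_mem u hcu 1)))
  have h2 : e 2 ∈ s := ht (Finset.mem_coe.2 (hu (Finset.orderEmbOfFin_mem u hcu 2)))
  exact h _ h0 _ h1 _ h2 (e.strictMono (by decide)) (e.strictMono (by decide))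

/-- Rolle's count -/
lemma AtMost.rolle {α β : ℝ} {f f' : ℝ → ℝ} {k : ℕ}
    (hd : ∀ x ∈ Ioo α β, HasDerivAt f (f' x) x)
    (h : AtMost k {x | x ∈ Ioo α β ∧ f' x = 0}) (T : ℝ) :
    AtMost (k + 1) {x | x ∈ Ioo α β ∧ f x = T} := by
  classical
  intro t ht
  by_contra hc
  push Not at hc
  obtain ⟨u, hu, hcu⟩ := Finset.exists_subset_card_eq (Nat.succ_le_of_lt hc)
  let e := u.orderEmbOfFin hcu
  have hmem : ∀ i, e i ∈ {x | x ∈ Ioo α β ∧ f x = T} := fun i =>
    ht (Finset.mem_coe.2 (hu (Finset.orderEmbOfFin_mem u hcu i)))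
  have hlt : ∀ i : Fin (k + 1), e i.castSucc < e i.succ := fun i =>
    e.strictMono Fin.castSucc_lt_succ
  have hex : ∀ i : Fin (k + 1), ∃ c, c ∈ Ioo (e i.castSucc) (e i.succ) ∧ f' c = 0 := by
    intro i
    have hsub : Icc (e i.castSucc) (e i.succ) ⊆ Ioo α β := by
      intro x hx
      exact ⟨lt_of_lt_of_le (hmem i.castSucc).1.1 hx.1, lt_of_le_of_lt hx.2 (hmem i.succ).1.2⟩
    obtain ⟨c, hc1, hc2⟩ := exists_hasDerivAt_eq_zero (f := f) (f' := f') (hlt i)
      (fun x hx => (hd x (hsub hx)).continuousAt.continuousWithinAt)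
      ((hmem i.castSucc).2.trans (hmem i.succ).2.symm)
      (fun x hx => hd x (hsub (Ioo_subset_Icc_self hx)))
    exact ⟨c, hc1, hc2⟩
  choose c hc1 hc2 using hex
  have hmono : StrictMono c := by
    rw [Fin.strictMono_iff_lt_succ]
    intro i
    have h1 := (hc1 i.castSucc).2
    have h2 := (hc1 i.succ).1
    have h3 : (i.castSucc).succ = (i.succ).castSucc := by
      rw [Fin.succ_castSucc]
    rw [h3] at h1
    exact h1.trans h2
  have h4 := h (Finset.univ.map ⟨c, hmono.injective⟩) (by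
    intro x hx
    simp only [Finset.coe_map, Function.Embedding.coeFn_mk, Finset.coe_univ, image_univ,
      mem_range] at hx
    obtain ⟨i, rfl⟩ := hx
    refine ⟨⟨?_, ?_⟩, hc2 i⟩
    · exact (hmem i.castSucc).1.1.trans (hc1 i).1
    · exact (hc1 i).2.trans (hmem i.succ).1.2)
  rw [Finset.card_map, Finset.card_univ, Fintype.card_fin] at h4
  omega

/-- a function whose zeros are all up-crossings is positive after a zero (order connected set) -/
lemma upcross_pos_set {s : Set ℝ} (hs : s.OrdConnected) {f f' : ℝ → ℝ}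
    (hd : ∀ x ∈ s, HasDerivAt f (f' x) x)
    (hz : ∀ x ∈ s, f x = 0 → 0 < f' x) {x y : ℝ} (hx : x ∈ s) (hy : y ∈ s)
    (hxy : x < y) (hfx : 0 ≤ f x) : 0 < f y := by
  have hsub : Icc x y ⊆ s := hs.out hx hy
  -- `f ≥ 0` on `[x,y]`
  have hnn : ∀ t ∈ Icc x y, 0 ≤ f t := by
    have := image_le_of_deriv_right_lt_deriv_boundary (f := fun t => - f t)
      (f' := fun t => - f' t) (a := x) (b := y) (B := fun _ => (0:ℝ)) (B' := fun _ => (0:ℝ))
      (fun t ht => ((hd t (hsub ht)).continuousAt.continuousWithinAt).neg)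
      (fun t ht => (hd t (hsub (Ico_subset_Icc_self ht))).neg.hasDerivWithinAt)
      (by simpa using hfx)
      (fun t => hasDerivAt_const t (0:ℝ))
      (by
        intro t ht h0
        have h1 : f t = 0 := by
          have : - f t = 0 := h0
          linarith
        have := hz t (hsub (Ico_subset_Icc_self ht)) h1
        simpa using this)
    intro t ht
    have h2 := this ht
    linarith
  rcases (hnn y ⟨hxy.le, le_rfl⟩).lt_or_eq with h | h
  · exact h
  · exfalso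
    have hpos := hz y hy h.symm
    -- the derivative at a left minimum is nonpositive
    have hd' := hd y hy
    have hslope := hd'.hasDerivWithinAt (s := Iio y)
    rw [hasDerivWithinAt_iff_tendsto_slope' (by simp)] at hslope
    have hle : ∀ᶠ t in nhdsWithin y (Iio y), slope f y t ≤ 0 := by
      have : Ioo x y ∈ nhdsWithin y (Iio y) := Ioo_mem_nhdsLT hxy
      filter_upwards [this] with t ht
      rw [slope_def_field, ← h, sub_zero]
      exact div_nonpos_of_nonneg_of_nonpos (hnn t ⟨ht.1.le, ht.2.le⟩) (by linarith [ht.2])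
    have := le_of_tendsto hslope hle
    linarith

lemma upcross_atMost_set {s : Set ℝ} (hs : s.OrdConnected) {f f' : ℝ → ℝ}
    (hd : ∀ x ∈ s, HasDerivAt f (f' x) x)
    (hz : ∀ x ∈ s, f x = 0 → 0 < f' x) : AtMost 1 {x | x ∈ s ∧ f x = 0} := by
  apply atMost_one
  intro x hx y hy hxy
  have := upcross_pos_set hs hd hz hx.1 hy.1 hxy hx.2.ge
  rw [hy.2] at this
  exact lt_irrefl _ this

/-- a function whose zeros are all up-crossings is positive after a zero -/
lemma upcross_pos {α β : ℝ} {f f' : ℝ → ℝ}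
    (hd : ∀ x ∈ Ioo α β, HasDerivAt f (f' x) x)
    (hz : ∀ x ∈ Ioo α β, f x = 0 → 0 < f' x) {x y : ℝ} (hx : x ∈ Ioo α β) (hy : y ∈ Ioo α β)
    (hxy : x < y) (hfx : 0 ≤ f x) : 0 < f y :=
  upcross_pos_set ordConnected_Ioo hd hz hx hy hxy hfx

/-- mirrored version -/
lemma upcross_neg {α β : ℝ} {f f' : ℝ → ℝ}
    (hd : ∀ x ∈ Ioo α β, HasDerivAt f (f' x) x)
    (hz : ∀ x ∈ Ioo α β, f x = 0 → 0 < f' x) {x y : ℝ} (hx : x ∈ Ioo α β) (hy : y ∈ Ioo α β)
    (hxy : x < y) (hfy : f y ≤ 0) : f x < 0 := by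
  by_contra h
  push Not at h
  have := upcross_pos hd hz hx hy hxy h
  linarith

lemma upcross_atMost {α β : ℝ} {f f' : ℝ → ℝ}
    (hd : ∀ x ∈ Ioo α β, HasDerivAt f (f' x) x)
    (hz : ∀ x ∈ Ioo α β, f x = 0 → 0 < f' x) : AtMost 1 {x | x ∈ Ioo α β ∧ f x = 0} := by
  apply atMost_one
  intro x hx y hy hxy
  have := upcross_pos hd hz hx.1 hy.1 hxy hx.2.ge
  rw [hy.2] at this
  exact lt_irrefl _ this

/-- sign pattern of a function with up-crossings only -/
lemma upcross_pattern {α β : ℝ} (hab : α ≤ β) {f f' : ℝ → ℝ}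
    (hd : ∀ x ∈ Ioo α β, HasDerivAt f (f' x) x)
    (hz : ∀ x ∈ Ioo α β, f x = 0 → 0 < f' x) :
    ∃ μ ∈ Icc α β, (∀ x ∈ Ioo α μ, f x < 0) ∧ (∀ x ∈ Ioo μ β, 0 < f x) := by
  classical
  let s : Set ℝ := {x | x ∈ Ioo α β ∧ f x ≤ 0}
  by_cases hs : s.Nonempty
  · have hbdd : BddAbove s := ⟨β, fun x hx => hx.1.2.le⟩
    refine ⟨sSup s, ⟨?_, csSup_le hs fun x hx => hx.1.2.le⟩, ?_, ?_⟩
    · obtain ⟨x, hx⟩ := hs
      exact hx.1.1.le.trans (le_csSup hbdd hx)
    · intro x hx
      obtain ⟨y, hy, hxy⟩ := exists_lt_of_lt_csSup hs hx.2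
      exact upcross_neg hd hz ⟨hx.1, hxy.trans hy.1.2⟩ hy.1 hxy hy.2
    · intro x hx
      by_contra hcon
      push Not at hcon
      obtain ⟨y, hy⟩ := hs
      have hmem : x ∈ s := ⟨⟨hy.1.1.trans_le ((le_csSup hbdd hy).trans hx.1.le), hx.2⟩, hcon⟩
      exact absurd (le_csSup hbdd hmem) (not_le.2 hx.1)
  · refine ⟨α, ⟨le_rfl, hab⟩, ?_, ?_⟩
    · intro x hx
      exact absurd hx.1 (not_lt.2 hx.2.le)
    · intro x hx
      by_contra hcon
      push Not at hcon
      exact hs ⟨x, hx, hcon⟩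

end Pool.Agent.X304.Ell
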