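import Pool.Agent.X304.Ell.Circle

set_option autoImplicit false

namespace Pool.Agent.X304.Ell

open Set Real

lemma exists_angle {x y : ℝ} (h : x ^ 2 + y ^ 2 = 1) :
    ∃ v ∈ Ico 0 (2 * π), cos v = x ∧ sin v = y := by
  set z : ℂ := ⟨x, y⟩ with hz
  have hnorm : ‖z‖ = 1 := by
    rw [Complex.norm_eq_sqrt_sq_add_sq, sqrt_eq_one]
    exact h
  have hz0 : z ≠ 0 := by
    intro h0
    rw [h0] at hnorm
    simp at hnorm
  have hc : cos (Complex.arg z) = x := by rw [Complex.cos_arg hz0, hnorm]; simp [hz]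
  have hs : sin (Complex.arg z) = y := by rw [Complex.sin_arg, hnorm]; simp [hz]
  refine ⟨toIcoMod two_pi_pos 0 (Complex.arg z), ?_, ?_, ?_⟩
  · have := toIcoMod_mem_Ico two_pi_pos 0 (Complex.arg z)
    simpa using this
  · rw [toIcoMod, zsmul_eq_mul, cos_sub_int_mul_two_pi, hc]
  · rw [toIcoMod, zsmul_eq_mul, sin_sub_int_mul_two_pi, hs]

/-- scalar form of the stationarity equations in the non-perpendicular case -/
lemma generic_scalar {a e R b C S ct st α1 α2 β1 β2 n₁ n₂ : ℝ} (ha : 0 < a) (he0 : 0 < e)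
    (he1 : e < 1) (hR : 0 < R) (hb0 : 0 < b) (hb : b ^ 2 = 1 - e ^ 2) (hCS : C ^ 2 + S ^ 2 = 1)
    (hct : ct ^ 2 + st ^ 2 = 1)
    (h11 : α1 ^ 2 + β1 ^ 2 + n₁ ^ 2 = 1) (h22 : α2 ^ 2 + β2 ^ 2 + n₂ ^ 2 = 1)
    (h12 : α1 * α2 + β1 * β2 + n₁ * n₂ = 0) (hn : n₁ ^ 2 + n₂ ^ 2 < 1)
    (hS1 : - (a ^ 2 * e * S * (1 + e * C)) - R * ct * (a * S * α1 + a * b * C * α2)
      - R * st * (a * S * β1 + a * b * C * β2) = 0)
    (hS2 : - (a * (e + C)) * (- R * st * α1 + R * ct * β1)
      + a * b * S * (- R * st * α2 + R * ct * β2) = 0) :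
    ∃ v ∈ Ico 0 (2 * π), cos v = - (e + C) / (1 + e * C) ∧ sin v = b * S / (1 + e * C) ∧
      ∃ σ : ℝ, (σ = 1 ∨ σ = -1) ∧ v ∈ Zc n₁ n₂ e (σ * (a * (1 - e ^ 2) / R)) ∧
        ct = σ * (α1 * cos v + α2 * sin v) / √(fa n₁ n₂ v) ∧
        st = σ * (β1 * cos v + β2 * sin v) / √(fa n₁ n₂ v) := by
  have hC1 : -1 ≤ C := by nlinarith [sq_nonneg S]
  have hw : 0 < 1 + e * C := by nlinarith
  have hw' := hw.ne'
  obtain ⟨v, hv, hcv, hsv⟩ := exists_angle (x := - (e + C) / (1 + e * C))
    (y := b * S / (1 + e * C)) (by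
      field_simp
      have : S ^ 2 = 1 - C ^ 2 := by linarith
      rw [hb, this]; ring)
  refine ⟨v, hv, hcv, hsv, ?_⟩
  set X := α1 * cos v + α2 * sin v with hX
  set Y := β1 * cos v + β2 * sin v with hY
  have hsc := sin_sq_add_cos_sq v
  have hfa : X ^ 2 + Y ^ 2 = fa n₁ n₂ v := by
    unfold fa nu
    rw [hX, hY]
    linear_combination (cos v ^ 2) * h11 + (sin v ^ 2) * h22 + 2 * cos v * sin v * h12 + hsc
  have hfapos := fa_pos hn v
  -- relations in terms of `v`
  have e1 : e + C = - (1 + e * C) * cos v := by rw [hcv]; field_simp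
  have e2 : b * S = (1 + e * C) * sin v := by rw [hsv]; field_simp
  have e3 : (1 + e * C) * (1 + e * cos v) = 1 - e ^ 2 := by rw [hcv]; field_simp; ring
  have hϖ : 0 < 1 + e * cos v := w_pos he0 he1 v
  -- second equation
  have k2 : X * st = Y * ct := by
    have h1 : a * R * (1 + e * C) * (Y * ct - X * st) = 0 := by
      rw [hX, hY]
      have : - (a * (e + C)) * (- R * st * α1 + R * ct * β1)
        + a * (b * S) * (- R * st * α2 + R * ct * β2) = 0 := by linarith
      rw [e1, e2] at this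
      linear_combination this
    have h2 : a * R * (1 + e * C) ≠ 0 := by positivity
    rcases mul_eq_zero.1 h1 with h3 | h3
    · exact absurd h3 h2
    · linarith
  set ρ := X * ct + Y * st with hρ
  have hXρ : X = ρ * ct := by
    rw [hρ]
    linear_combination st * k2 - X * hct
  have hYρ : Y = ρ * st := by
    rw [hρ]
    linear_combination (-ct) * k2 - Y * hct
  have hρ2 : ρ ^ 2 = fa n₁ n₂ v := by
    rw [← hfa, hXρ, hYρ]
    linear_combination (-ρ ^ 2) * hct
  have hm := sqrt_pos.2 hfapos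
  have hm2 := sq_sqrt hfapos.le
  -- first equation
  have k1 : ρ * (a * (1 - e ^ 2)) * (e * sin v) = R * ((1 + e * cos v) * bb n₁ n₂ e v) := by
    -- express `b * (first equation)` through `v`
    have hSb : b * (a * S) = a * (1 + e * C) * sin v := by linear_combination a * e2
    have hCb : b * (a * b * C) = - (a * (1 + e * C) * (e + cos v)) := by
      have : C * (1 - e ^ 2) = - ((1 + e * C) * (e + cos v)) := by
        linear_combination e1
      linear_combination a * C * hb + a * this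
    have h1 : a * (1 + e * C) * (a * e * (1 + e * C) * sin v
        + R * ct * (sin v * α1 - (e + cos v) * α2) + R * st * (sin v * β1 - (e + cos v) * β2)) = 0 := by
      have h2 : b * (- (a ^ 2 * e * S * (1 + e * C)) - R * ct * (a * S * α1 + a * b * C * α2)
        - R * st * (a * S * β1 + a * b * C * β2)) = 0 := by rw [hS1]; ring
      linear_combination (-1) * h2 - (a * e * (1 + e * C) + R * ct * α1 + R * st * β1) * hSb
        - (R * ct * α2 + R * st * β2) * hCb
    have h3 : a * e * (1 + e * C) * sin v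
        + R * ct * (sin v * α1 - (e + cos v) * α2) + R * st * (sin v * β1 - (e + cos v) * β2) = 0 := by
      rcases mul_eq_zero.1 h1 with h4 | h4
      · exact absurd h4 (by positivity)
      · exact h4
    -- multiply by `ρ`
    have h4 : ρ * (a * e * (1 + e * C) * sin v) + R * (X * (sin v * α1 - (e + cos v) * α2)
        + Y * (sin v * β1 - (e + cos v) * β2)) = 0 := by
      linear_combination ρ * h3 + R * (sin v * α1 - (e + cos v) * α2) * hXρ
        + R * (sin v * β1 - (e + cos v) * β2) * hYρ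
    have h5 : X * (sin v * α1 - (e + cos v) * α2) + Y * (sin v * β1 - (e + cos v) * β2)
        = - bb n₁ n₂ e v := by
      unfold bb fa fc nu mu
      rw [hX, hY]
      linear_combination (cos v * sin v) * h11 - (sin v * (e + cos v)) * h22
        + (sin v ^ 2 - cos v * (e + cos v)) * h12
        - (n₂ ^ 2 * e * sin v + n₁ * n₂ * e * cos v) * hsc
    rw [h5] at h4
    have h6 : ρ * (a * e * (1 + e * C) * sin v) * (1 + e * cos v)
        = ρ * (a * (1 - e ^ 2)) * (e * sin v) := by
      linear_combination ρ * a * e * sin v * e3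
    linear_combination (1 + e * cos v) * h4 - h6
  rcases le_or_gt 0 ρ with hρs | hρs
  · have hρm : ρ = √(fa n₁ n₂ v) := by rw [← hρ2, sqrt_sq hρs]
    refine ⟨1, Or.inl rfl, ⟨hv, ?_⟩, ?_, ?_⟩
    · rw [← hρm]
      field_simp
      linear_combination k1
    · rw [← hρm, hXρ]
      have : ρ ≠ 0 := by rw [hρm]; exact hm.ne'
      field_simp
    · rw [← hρm, hYρ]
      have : ρ ≠ 0 := by rw [hρm]; exact hm.ne'
      field_simp
  · have hρm : -ρ = √(fa n₁ n₂ v) := by rw [← hρ2, sqrt_sq_eq_abs, abs_of_neg hρs]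
    have hρ0 : ρ ≠ 0 := hρs.ne
    refine ⟨-1, Or.inr rfl, ⟨hv, ?_⟩, ?_, ?_⟩
    · rw [← hρm]
      field_simp
      linear_combination k1
    · rw [← hρm, hXρ]
      field_simp
    · rw [← hρm, hYρ]
      field_simp

end Pool.Agent.X304.Ell
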