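import Pool.Agent.X304.Ell.Perp

set_option autoImplicit false

namespace Pool.Agent.X304.Ell

open Set Real

abbrev E3 := EuclideanSpace ℝ (Fin 3)

/-- `s` is finite with at most `k` elements -/
def FinLe {α : Type*} (k : ℕ) (s : Set α) : Prop := s.Finite ∧ s.ncard ≤ k

lemma AtMost.image {α : Type*} {k : ℕ} {s : Set ℝ} (h : AtMost k s) (f : ℝ → α) :
    FinLe k (f '' s) :=
  ⟨h.finite.image f, (Set.ncard_image_le h.finite).trans h.ncard⟩

lemma FinLe.union {α : Type*} {k l : ℕ} {s t : Set α} (h : FinLe k s) (h' : FinLe l t) :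
    FinLe (k + l) (s ∪ t) :=
  ⟨h.1.union h'.1, (Set.ncard_union_le s t).trans (add_le_add h.2 h'.2)⟩

lemma FinLe.mono {α : Type*} {k l : ℕ} {s t : Set α} (h : FinLe k t) (hs : s ⊆ t) (hk : k ≤ l) :
    FinLe l s :=
  ⟨h.1.subset hs, ((Set.ncard_le_ncard hs h.1).trans h.2).trans hk⟩

lemma exists_normal (u w : E3) (hu : ‖u‖ = 1) (hw : ‖w‖ = 1) (huw : inner ℝ u w = 0) :
    ∃ n : E3, ∀ x y : E3, inner ℝ x u * inner ℝ y u + inner ℝ x w * inner ℝ y w
      + inner ℝ x n * inner ℝ y n = inner ℝ x y := by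
  have hon : Orthonormal ℝ (Set.restrict ({0, 1} : Set (Fin 3)) ![u, w, 0]) := by
    constructor
    · rintro ⟨i, hi⟩
      simp only [Set.mem_insert_iff, Set.mem_singleton_iff] at hi
      rcases hi with rfl | rfl
      · exact hu
      · exact hw
    · rintro ⟨i, hi⟩ ⟨j, hj⟩ hij
      simp only [Set.mem_insert_iff, Set.mem_singleton_iff] at hi hj
      have hwu : inner ℝ w u = 0 := by rw [real_inner_comm]; exact huw
      rcases hi with rfl | rfl <;> rcases hj with rfl | rfl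
      · exact absurd rfl hij
      · exact huw
      · exact hwu
      · exact absurd rfl hij
  obtain ⟨b, hb⟩ := hon.exists_orthonormalBasis_extension_of_card_eq (by simp)
  have hb0 : b 0 = u := by simpa using hb 0 (by simp)
  have hb1 : b 1 = w := by simpa using hb 1 (by simp)
  refine ⟨b 2, fun x y => ?_⟩
  have h := b.sum_inner_mul_inner x y
  rw [Fin.sum_univ_three, hb0, hb1, real_inner_comm y u, real_inner_comm y w,
    real_inner_comm y (b 2)] at h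
  exact h

lemma reduce_angle (s : ℝ) : ∃ s' ∈ Ico (-(π / 2)) (3 * π / 2), cos s' = cos s ∧ sin s' = sin s := by
  refine ⟨toIcoMod two_pi_pos (-(π / 2)) s, ?_, ?_, ?_⟩
  · have := toIcoMod_mem_Ico two_pi_pos (-(π / 2)) s
    refine ⟨this.1, this.2.trans_le ?_⟩
    linarith
  · rw [toIcoMod, zsmul_eq_mul]
    exact cos_sub_int_mul_two_pi s _
  · rw [toIcoMod, zsmul_eq_mul]
    exact sin_sub_int_mul_two_pi s _

section
variable (F u₁ w₁ u₂ w₂ : E3) (a e R : ℝ)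

/-- the set of stationary pairs, with the conics parametrised as usual -/
def StatSet : Set (E3 × E3) :=
  {x | ∃ s t : ℝ, x = (F + (a * (e + cos s)) • u₁ + (a * √(1 - e ^ 2) * sin s) • w₁,
      F + (R * cos t) • u₂ + (R * sin t) • w₂) ∧
    inner ℝ ((F + (a * (e + cos s)) • u₁ + (a * √(1 - e ^ 2) * sin s) • w₁) -
      (F + (R * cos t) • u₂ + (R * sin t) • w₂))
      ((-(a * sin s)) • u₁ + (a * √(1 - e ^ 2) * cos s) • w₁) = 0 ∧
    inner ℝ ((F + (a * (e + cos s)) • u₁ + (a * √(1 - e ^ 2) * sin s) • w₁) -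
      (F + (R * cos t) • u₂ + (R * sin t) • w₂))
      ((-(R * sin t)) • u₂ + (R * cos t) • w₂) = 0}

variable {F u₁ w₁ u₂ w₂ a e R}

theorem statSet_le (ha : 0 < a) (he0 : 0 < e) (he1 : e < 1) (hR : 0 < R)
    (hu₁ : ‖u₁‖ = 1) (hw₁ : ‖w₁‖ = 1) (huw₁ : inner ℝ u₁ w₁ = 0)
    (hu₂ : ‖u₂‖ = 1) (hw₂ : ‖w₂‖ = 1) (huw₂ : inner ℝ u₂ w₂ = 0) :
    FinLe 10 (StatSet F u₁ w₁ u₂ w₂ a e R) := by
  obtain ⟨n, hpars⟩ := exists_normal u₂ w₂ hu₂ hw₂ huw₂
  have hu₁' : inner ℝ u₁ u₁ = (1:ℝ) := by rw [real_inner_self_eq_norm_sq, hu₁]; norm_num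
  have hw₁' : inner ℝ w₁ w₁ = (1:ℝ) := by rw [real_inner_self_eq_norm_sq, hw₁]; norm_num
  have hu₂' : inner ℝ u₂ u₂ = (1:ℝ) := by rw [real_inner_self_eq_norm_sq, hu₂]; norm_num
  have hw₂' : inner ℝ w₂ w₂ = (1:ℝ) := by rw [real_inner_self_eq_norm_sq, hw₂]; norm_num
  have hwu₁ : inner ℝ w₁ u₁ = (0:ℝ) := by rw [real_inner_comm]; exact huw₁
  have hwu₂ : inner ℝ w₂ u₂ = (0:ℝ) := by rw [real_inner_comm]; exact huw₂
  obtain ⟨α1, hα1⟩ : ∃ α1 : ℝ, inner ℝ u₁ u₂ = -α1 := ⟨-inner ℝ u₁ u₂, by ring⟩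
  obtain ⟨β1, hβ1⟩ : ∃ β1 : ℝ, inner ℝ u₁ w₂ = -β1 := ⟨-inner ℝ u₁ w₂, by ring⟩
  obtain ⟨n₁, hn₁⟩ : ∃ n₁ : ℝ, inner ℝ u₁ n = -n₁ := ⟨-inner ℝ u₁ n, by ring⟩
  obtain ⟨α2, hα2⟩ : ∃ α2 : ℝ, inner ℝ w₁ u₂ = α2 := ⟨_, rfl⟩
  obtain ⟨β2, hβ2⟩ : ∃ β2 : ℝ, inner ℝ w₁ w₂ = β2 := ⟨_, rfl⟩
  obtain ⟨n₂, hn₂⟩ : ∃ n₂ : ℝ, inner ℝ w₁ n = n₂ := ⟨_, rfl⟩
  have h11 : α1 ^ 2 + β1 ^ 2 + n₁ ^ 2 = 1 := by
    have := hpars u₁ u₁
    rw [hα1, hβ1, hn₁, hu₁'] at this
    linear_combination this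
  have h22 : α2 ^ 2 + β2 ^ 2 + n₂ ^ 2 = 1 := by
    have := hpars w₁ w₁
    rw [hα2, hβ2, hn₂, hw₁'] at this
    linear_combination this
  have h12 : α1 * α2 + β1 * β2 + n₁ * n₂ = 0 := by
    have := hpars u₁ w₁
    rw [hα1, hβ1, hn₁, hα2, hβ2, hn₂, huw₁] at this
    linear_combination (-1) * this
  have hnle : n₁ ^ 2 + n₂ ^ 2 ≤ 1 := by
    have h1 : (α1 * β2 - β1 * α2) ^ 2 = 1 - n₁ ^ 2 - n₂ ^ 2 := by
      linear_combination (α2 ^ 2 + β2 ^ 2) * h11 + (1 - n₁ ^ 2) * h22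
        - (α1 * α2 + β1 * β2 - n₁ * n₂) * h12
    nlinarith [sq_nonneg (α1 * β2 - β1 * α2)]
  obtain ⟨b, hb⟩ : ∃ b : ℝ, √(1 - e ^ 2) = b := ⟨_, rfl⟩
  have hb0 : 0 < b := by rw [← hb]; exact sqrt_pos.2 (by nlinarith)
  have hb2 : b ^ 2 = 1 - e ^ 2 := by rw [← hb]; exact sq_sqrt (by nlinarith)
  -- the scalar equations
  have hscal : ∀ s t : ℝ,
      inner ℝ ((F + (a * (e + cos s)) • u₁ + (a * √(1 - e ^ 2) * sin s) • w₁) -
        (F + (R * cos t) • u₂ + (R * sin t) • w₂))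
        ((-(a * sin s)) • u₁ + (a * √(1 - e ^ 2) * cos s) • w₁) = 0 →
      inner ℝ ((F + (a * (e + cos s)) • u₁ + (a * √(1 - e ^ 2) * sin s) • w₁) -
        (F + (R * cos t) • u₂ + (R * sin t) • w₂))
        ((-(R * sin t)) • u₂ + (R * cos t) • w₂) = 0 →
      (- (a ^ 2 * e * sin s * (1 + e * cos s)) - R * cos t * (a * sin s * α1 + a * b * cos s * α2)
        - R * sin t * (a * sin s * β1 + a * b * cos s * β2) = 0) ∧
      (- (a * (e + cos s)) * (- R * sin t * α1 + R * cos t * β1)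
        + a * b * sin s * (- R * sin t * α2 + R * cos t * β2) = 0) := by
    intro s t h1 h2
    have hd : ((F + (a * (e + cos s)) • u₁ + (a * √(1 - e ^ 2) * sin s) • w₁) -
        (F + (R * cos t) • u₂ + (R * sin t) • w₂))
        = (a * (e + cos s)) • u₁ + (a * b * sin s) • w₁ - ((R * cos t) • u₂ + (R * sin t) • w₂) := by
      rw [hb]; abel
    rw [hd, hb] at h1
    rw [hd] at h2
    have hα1' : inner ℝ u₂ u₁ = -α1 := by rw [real_inner_comm]; exact hα1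
    have hβ1' : inner ℝ w₂ u₁ = -β1 := by rw [real_inner_comm]; exact hβ1
    have hα2' : inner ℝ u₂ w₁ = α2 := by rw [real_inner_comm]; exact hα2
    have hβ2' : inner ℝ w₂ w₁ = β2 := by rw [real_inner_comm]; exact hβ2
    simp only [inner_add_left, inner_add_right, inner_sub_left, inner_smul_left,
      inner_smul_right, hu₁', hw₁', hu₂', hw₂', huw₁, huw₂, hwu₁, hwu₂, hα1, hα2, hβ1, hβ2,
      hα1', hα2', hβ1', hβ2', RCLike.conj_to_real] at h1 h2
    constructor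
    · linear_combination h1 - a ^ 2 * sin s * cos s * hb2
    · linear_combination h2
  rcases hnle.lt_or_eq with hn | hn
  · -- generic case
    have hp := circle_pos (n₁ := n₁) (n₂ := n₂) he0 he1 hn (a * (1 - e ^ 2) / R)
    have hTneg : (-1) * (a * (1 - e ^ 2) / R) < 0 := by
      have : 0 < a * (1 - e ^ 2) / R := by
        apply div_pos _ hR
        apply mul_pos ha
        nlinarith
      linarith
    have hm := circle_neg (n₁ := n₁) (n₂ := n₂) he0 he1 hn hTneg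
    let Φ : ℝ → ℝ → E3 × E3 := fun σ v =>
      (F + (-(a * (1 - e ^ 2) / (1 + e * cos v) * cos v)) • u₁
          + (a * (1 - e ^ 2) / (1 + e * cos v) * sin v) • w₁,
        F + (R * (σ * (α1 * cos v + α2 * sin v) / √(fa n₁ n₂ v))) • u₂
          + (R * (σ * (β1 * cos v + β2 * sin v) / √(fa n₁ n₂ v))) • w₂)
    refine ((hp.image (Φ 1)).union (hm.image (Φ (-1)))).mono ?_ (by norm_num)
    rintro x ⟨s, t, rfl, h1, h2⟩
    obtain ⟨hS1, hS2⟩ := hscal s t h1 h2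
    obtain ⟨v, -, hcv, hsv, σ, hσ, hvZ, hct, hst⟩ := generic_scalar ha he0 he1 hR hb0 hb2
      (cos_sq_add_sin_sq s) (cos_sq_add_sin_sq t) h11 h22 h12 hn hS1 hS2
    have hw : 0 < 1 + e * cos s := by nlinarith [neg_one_le_cos s]
    have hwv : 1 + e * cos v = (1 - e ^ 2) / (1 + e * cos s) := by
      rw [hcv]; field_simp; ring
    have he2 : (1 : ℝ) - e ^ 2 ≠ 0 := by
      have : 0 < 1 - e ^ 2 := by nlinarith
      exact this.ne'
    have hpt : (F + (a * (e + cos s)) • u₁ + (a * √(1 - e ^ 2) * sin s) • w₁,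
        F + (R * cos t) • u₂ + (R * sin t) • w₂) = Φ σ v := by
      have e1 : -(a * (1 - e ^ 2) / (1 + e * cos v) * cos v) = a * (e + cos s) := by
        rw [hwv, hcv]; field_simp
      have e2 : a * (1 - e ^ 2) / (1 + e * cos v) * sin v = a * √(1 - e ^ 2) * sin s := by
        rw [hwv, hsv, hb]; field_simp
      simp only [Φ, e1, e2, ← hct, ← hst]
    rw [hpt]
    rcases hσ with rfl | rfl
    · left
      rw [one_mul] at hvZ
      exact mem_image_of_mem _ hvZ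
    · right
      exact mem_image_of_mem _ hvZ
  · -- perpendicular case
    let A : ℝ → Set ℝ := fun σ => {s | s ∈ Ico (-(π / 2)) (3 * π / 2) ∧
      (a * e - σ * R * n₂) * sin s + (a * e ^ 2) * (sin s * cos s) + (σ * R * n₁ * b) * cos s = 0}
    let Φ : ℝ → ℝ → E3 × E3 := fun σ s =>
      (F + (a * (e + cos s)) • u₁ + (a * √(1 - e ^ 2) * sin s) • w₁,
        F + (R * (σ * (-n₂ * α1 + n₁ * α2))) • u₂ + (R * (σ * (-n₂ * β1 + n₁ * β2))) • w₂)
    have hA : FinLe 6 (Φ 1 '' A 1 ∪ Φ (-1) '' A (-1)) := by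
      have hg : 0 < a * e ^ 2 := by positivity
      have hlt : a * e ^ 2 < a * e := by
        have : e ^ 2 < e := by nlinarith
        exact mul_lt_mul_of_pos_left this ha
      rcases le_total n₂ 0 with h | h
      · have h1 : AtMost 2 (A 1) := trig2 hg (by nlinarith [mul_nonneg hR.le (neg_nonneg.2 h)])
        have h2 : AtMost 4 (A (-1)) := trig4 hg.ne'
        exact (h1.image _).union (h2.image _)
      · have h1 : AtMost 4 (A 1) := trig4 hg.ne'
        have h2 : AtMost 2 (A (-1)) := trig2 hg (by nlinarith [mul_nonneg hR.le h])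
        exact (h1.image _).union (h2.image _)
    let κ : ℝ → ℝ := fun ε => a * e * n₂ * b ^ 2 / (R * (1 + e * (ε * n₁)) ^ 2)
    let Ψ : ℝ → ℝ → E3 × E3 := fun ε τ =>
      (F + (a * (e + (- (e + ε * n₁) / (1 + e * (ε * n₁))))) • u₁
          + (a * √(1 - e ^ 2) * (ε * n₂ * b / (1 + e * (ε * n₁)))) • w₁,
        F + (R * (κ ε * (-n₂ * α1 + n₁ * α2) - τ * (-n₂ * β1 + n₁ * β2))) • u₂
          + (R * (κ ε * (-n₂ * β1 + n₁ * β2) + τ * (-n₂ * α1 + n₁ * α2))) • w₂)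
    have hB : FinLe 4 (Ψ 1 '' {τ | τ ^ 2 = 1 - κ 1 ^ 2} ∪ Ψ (-1) '' {τ | τ ^ 2 = 1 - κ (-1) ^ 2}) :=
      ((atMost_sq _).image _).union ((atMost_sq _).image _)
    refine (hA.union hB).mono ?_ (by norm_num)
    rintro x ⟨s, t, rfl, h1, h2⟩
    obtain ⟨hS1, hS2⟩ := hscal s t h1 h2
    rcases perp_scalar ha he0 he1 hR hb0 hb2
      (cos_sq_add_sin_sq s) (cos_sq_add_sin_sq t) h11 h22 h12 hn hS1 hS2 with
      ⟨σ, hσ, hct, hst, heq⟩ | ⟨ε, hε, hC, hS, τ, hτ, hct, hst⟩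
    · left
      obtain ⟨s', hs', hcs', hss'⟩ := reduce_angle s
      have hpt : (F + (a * (e + cos s)) • u₁ + (a * √(1 - e ^ 2) * sin s) • w₁,
          F + (R * cos t) • u₂ + (R * sin t) • w₂) = Φ σ s' := by
        simp only [Φ, hcs', hss', ← hct, ← hst]
      have hmem : s' ∈ A σ := ⟨hs', by rw [hcs', hss']; exact heq⟩
      rw [hpt]
      rcases hσ with rfl | rfl
      · left; exact mem_image_of_mem _ hmem
      · right; exact mem_image_of_mem _ hmem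
    · right
      have hpt : (F + (a * (e + cos s)) • u₁ + (a * √(1 - e ^ 2) * sin s) • w₁,
          F + (R * cos t) • u₂ + (R * sin t) • w₂) = Ψ ε τ := by
        simp only [Ψ, κ, ← hct, ← hst, ← hC, ← hS]
      rw [hpt]
      rcases hε with rfl | rfl
      · left; exact mem_image_of_mem _ hτ
      · right; exact mem_image_of_mem _ hτ

end

end Pool.Agent.X304.Ell
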