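import Pool.Agent.X304.Ell.Calc
import Pool.Agent.X304.Ell.Alg

set_option autoImplicit false

namespace Pool.Agent.X304.Ell

open Set Real

variable {n₁ n₂ e : ℝ}

lemma nu_mu_sq (n₁ n₂ v : ℝ) : nu n₁ n₂ v ^ 2 + mu n₁ n₂ v ^ 2 = n₁ ^ 2 + n₂ ^ 2 := by
  unfold nu mu
  linear_combination (n₁ ^ 2 + n₂ ^ 2) * sin_sq_add_cos_sq v

lemma fa_pos (hn : n₁ ^ 2 + n₂ ^ 2 < 1) (v : ℝ) : 0 < fa n₁ n₂ v := by
  have := nu_mu_sq n₁ n₂ v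
  unfold fa
  nlinarith [sq_nonneg (mu n₁ n₂ v)]

lemma fa_le (n₁ n₂ v : ℝ) : fa n₁ n₂ v ≤ 1 := by
  unfold fa
  nlinarith [sq_nonneg (nu n₁ n₂ v)]

lemma fd_pos (hn : n₁ ^ 2 + n₂ ^ 2 < 1) (v : ℝ) : 0 < fa n₁ n₂ v + fD n₁ n₂ v := by
  have := nu_mu_sq n₁ n₂ v
  unfold fa fD
  nlinarith [sq_nonneg (nu n₁ n₂ v)]

lemma fdelta_pos (hn : n₁ ^ 2 + n₂ ^ 2 < 1) (v : ℝ) :
    0 < fa n₁ n₂ v * (fa n₁ n₂ v + fD n₁ n₂ v) - fc n₁ n₂ v ^ 2 := by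
  have := nu_mu_sq n₁ n₂ v
  unfold fa fD fc
  nlinarith [sq_nonneg (nu n₁ n₂ v)]

lemma w_pos (he0 : 0 < e) (he1 : e < 1) (v : ℝ) : 0 < 1 + e * cos v := by
  nlinarith [neg_one_le_cos v]

lemma sin_pos' {v : ℝ} (hv : v ∈ Ioo 0 π) : 0 < sin v := sin_pos_of_pos_of_lt_pi hv.1 hv.2

lemma et_pos (he0 : 0 < e) (he1 : e < 1) (hn : n₁ ^ 2 + n₂ ^ 2 < 1) {v : ℝ} (hv : v ∈ Ioo 0 π) :
    0 < et n₁ n₂ e v := by
  unfold et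
  have h1 := fa_pos hn v
  have h2 := w_pos he0 he1 v
  have h3 := sin_pos' hv
  positivity

lemma zz_pos (he0 : 0 < e) (he1 : e < 1) {v : ℝ} (hv : v ∈ Ioo 0 π) : 0 < zz e v := by
  unfold zz
  have h2 := w_pos he0 he1 v
  have h3 := sin_pos' hv
  positivity

lemma hh_eq (he0 : 0 < e) (he1 : e < 1) {v : ℝ} (hv : v ∈ Ioo 0 π) :
    hh n₁ n₂ e v = zz e v * (et n₁ n₂ e v + fc n₁ n₂ v) := by
  have h2 := (w_pos he0 he1 v).ne'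
  have h3 := (sin_pos' hv).ne'
  have h4 := he0.ne'
  unfold hh et zz
  field_simp

lemma tau_eq (he0 : 0 < e) (he1 : e < 1) {v : ℝ} (hv : v ∈ Ioo 0 π) :
    tau n₁ n₂ e v = ((1 + e * cos v) * zz e v / √(fa n₁ n₂ v)) * (et n₁ n₂ e v + fc n₁ n₂ v) := by
  unfold tau
  rw [hh_eq he0 he1 hv]
  ring

lemma tau_fac_pos (he0 : 0 < e) (he1 : e < 1) (hn : n₁ ^ 2 + n₂ ^ 2 < 1) {v : ℝ}
    (hv : v ∈ Ioo 0 π) : 0 < (1 + e * cos v) * zz e v / √(fa n₁ n₂ v) := by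
  have h1 := fa_pos hn v
  have h2 := w_pos he0 he1 v
  have h3 := zz_pos he0 he1 hv
  have h4 := sqrt_pos.2 h1
  positivity

lemma tau_pos_iff (he0 : 0 < e) (he1 : e < 1) (hn : n₁ ^ 2 + n₂ ^ 2 < 1) {v : ℝ}
    (hv : v ∈ Ioo 0 π) : 0 < tau n₁ n₂ e v ↔ 0 < et n₁ n₂ e v + fc n₁ n₂ v := by
  rw [tau_eq he0 he1 hv, mul_pos_iff_of_pos_left (tau_fac_pos he0 he1 hn hv)]

lemma hh_pos_iff (he0 : 0 < e) (he1 : e < 1) {v : ℝ}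
    (hv : v ∈ Ioo 0 π) : 0 < hh n₁ n₂ e v ↔ 0 < et n₁ n₂ e v + fc n₁ n₂ v := by
  rw [hh_eq he0 he1 hv, mul_pos_iff_of_pos_left (zz_pos he0 he1 hv)]

/-- the derivative of `tau` -/
noncomputable def tau' (n₁ n₂ e v : ℝ) : ℝ :=
  - ((1 + e * cos v) * zz e v * fG n₁ n₂ e v / (fa n₁ n₂ v * √(fa n₁ n₂ v)))

lemma hasDerivAt_tau' (he0 : 0 < e) (he1 : e < 1) (hn : n₁ ^ 2 + n₂ ^ 2 < 1) {v : ℝ}
    (hv : v ∈ Ioo 0 π) : HasDerivAt (tau n₁ n₂ e) (tau' n₁ n₂ e v) v :=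
  hasDerivAt_tau he0.ne' (sin_pos' hv).ne' (w_pos he0 he1 v).ne' (fa_pos hn v)

lemma tau'_zero_iff (he0 : 0 < e) (he1 : e < 1) (hn : n₁ ^ 2 + n₂ ^ 2 < 1) {v : ℝ}
    (hv : v ∈ Ioo 0 π) : tau' n₁ n₂ e v = 0 ↔ fG n₁ n₂ e v = 0 := by
  have h1 := fa_pos hn v
  have h2 := w_pos he0 he1 v
  have h3 := zz_pos he0 he1 hv
  have h4 := sqrt_pos.2 h1
  unfold tau'
  constructor
  · intro h
    have h5 : (1 + e * cos v) * zz e v * fG n₁ n₂ e v / (fa n₁ n₂ v * √(fa n₁ n₂ v)) = 0 := by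
      linarith
    rw [div_eq_zero_iff] at h5
    rcases h5 with h5 | h5
    · rcases mul_eq_zero.1 h5 with h6 | h6
      · exact absurd h6 (mul_pos h2 h3).ne'
      · exact h6
    · exact absurd h5 (mul_pos h1 h4).ne'
  · intro h
    rw [h]; simp

lemma hasDerivAt_G (he0 : 0 < e) (he1 : e < 1) (hn : n₁ ^ 2 + n₂ ^ 2 < 1) {v : ℝ}
    (hv : v ∈ Ioo 0 π) : ∃ g', HasDerivAt (fG n₁ n₂ e) g' v ∧
      (fG n₁ n₂ e v = 0 → g' = 3 / fa n₁ n₂ v * fJ n₁ n₂ (et n₁ n₂ e v) v) := by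
  refine ⟨_, hasDerivAt_fG (sin_pos' hv).ne' (w_pos he0 he1 v).ne' (fa_pos hn v).ne', ?_⟩
  intro h0
  exact (hasDerivAt_fG (sin_pos' hv).ne' (w_pos he0 he1 v).ne' (fa_pos hn v).ne').unique
    (hasDerivAt_fG_zero (sin_pos' hv).ne' (w_pos he0 he1 v).ne' (fa_pos hn v).ne' h0)

noncomputable def gd (n₁ n₂ e v : ℝ) : ℝ :=
  (2 * et n₁ n₂ e v + fc n₁ n₂ v) * (et n₁ n₂ e v / fa n₁ n₂ v *
      (et n₁ n₂ e v + 2 * fc n₁ n₂ v + fa n₁ n₂ v * xi v)) + fD n₁ n₂ v * et n₁ n₂ e v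
      + fl' n₁ n₂ v

lemma hasDerivAt_gd (he0 : 0 < e) (he1 : e < 1) (hn : n₁ ^ 2 + n₂ ^ 2 < 1) {v : ℝ}
    (hv : v ∈ Ioo 0 π) : HasDerivAt (fG n₁ n₂ e) (gd n₁ n₂ e v) v :=
  hasDerivAt_fG (sin_pos' hv).ne' (w_pos he0 he1 v).ne' (fa_pos hn v).ne'

lemma gd_zero (he0 : 0 < e) (he1 : e < 1) (hn : n₁ ^ 2 + n₂ ^ 2 < 1) {v : ℝ}
    (hv : v ∈ Ioo 0 π) (h0 : fG n₁ n₂ e v = 0) :
    gd n₁ n₂ e v = 3 / fa n₁ n₂ v * fJ n₁ n₂ (et n₁ n₂ e v) v :=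
  (hasDerivAt_gd he0 he1 hn hv).unique
    (hasDerivAt_fG_zero (sin_pos' hv).ne' (w_pos he0 he1 v).ne' (fa_pos hn v).ne' h0)

/-- Rolle for `tau` -/
lemma tau_atMost (he0 : 0 < e) (he1 : e < 1) (hn : n₁ ^ 2 + n₂ ^ 2 < 1) {k : ℕ}
    (h : AtMost k {v | v ∈ Ioo 0 π ∧ fG n₁ n₂ e v = 0}) (T : ℝ) :
    AtMost (k + 1) {v | v ∈ Ioo 0 π ∧ tau n₁ n₂ e v = T} := by
  apply AtMost.rolle (fun x hx => hasDerivAt_tau' he0 he1 hn hx)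
  refine h.mono ?_ le_rfl
  intro v hv
  exact ⟨hv.1, (tau'_zero_iff he0 he1 hn hv.1).1 hv.2⟩

/-! ### the half where `n₁ n₂ > 0` -/

theorem half_pos_G (he0 : 0 < e) (he1 : e < 1) (hn : n₁ ^ 2 + n₂ ^ 2 < 1) (hB : 0 < n₁ * n₂) :
    AtMost 1 {v | v ∈ Ioo 0 π ∧ fG n₁ n₂ e v = 0} := by
  apply upcross_atMost (fun x hx => hasDerivAt_gd he0 he1 hn hx)
  intro v hv h0
  rw [gd_zero he0 he1 hn hv h0]
  have h1 := fa_pos hn v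
  have h2 := et_pos he0 he1 hn hv
  have h3 := sin_pos' hv
  unfold fJ
  positivity

theorem half_pos (he0 : 0 < e) (he1 : e < 1) (hn : n₁ ^ 2 + n₂ ^ 2 < 1) (hB : 0 < n₁ * n₂)
    (T : ℝ) : AtMost 2 {v | v ∈ Ioo 0 π ∧ tau n₁ n₂ e v = T} :=
  tau_atMost he0 he1 hn (half_pos_G he0 he1 hn hB) T

/-! ### zeros of `hh` where `l < 0` are up-crossings -/

noncomputable def hd (n₁ n₂ e v : ℝ) : ℝ :=
  2 * fc n₁ n₂ v + fD n₁ n₂ v * zz e v + fc n₁ n₂ v * (-1 - zz e v * xi v)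

lemma hasDerivAt_zz (he0 : 0 < e) {v : ℝ} (hv : v ∈ Ioo 0 π) :
    HasDerivAt (zz e) (-1 - zz e v * xi v) v := by
  have hs := (sin_pos' hv).ne'
  have he := he0.ne'
  have hwd : HasDerivAt (fun x => 1 + e * cos x) (e * (- sin v)) v :=
    ((hasDerivAt_cos v).const_mul e).const_add 1
  have hzd := hwd.div ((hasDerivAt_sin v).const_mul e) (mul_ne_zero he hs)
  refine HasDerivAt.congr_deriv hzd ?_
  unfold zz xi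
  field_simp

lemma hasDerivAt_hh (he0 : 0 < e) {v : ℝ} (hv : v ∈ Ioo 0 π) :
    HasDerivAt (hh n₁ n₂ e) (hd n₁ n₂ e v) v := by
  have h := (hasDerivAt_fa n₁ n₂ v).add ((hasDerivAt_fc n₁ n₂ v).mul (hasDerivAt_zz he0 hv))
  refine HasDerivAt.congr_deriv h ?_
  unfold hd
  ring

lemma hd_pos (he0 : 0 < e) (he1 : e < 1) (hn : n₁ ^ 2 + n₂ ^ 2 < 1) {v : ℝ}
    (hv : v ∈ Ioo 0 π) (h0 : hh n₁ n₂ e v = 0) (hl : fl n₁ n₂ v < 0) : 0 < hd n₁ n₂ e v := by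
  have hz := zz_pos he0 he1 hv
  have ha := fa_pos hn v
  unfold hh at h0
  have hc : fc n₁ n₂ v < 0 := by
    by_contra hcon
    push Not at hcon
    have := mul_nonneg hcon hz.le
    linarith
  have h1 : fc n₁ n₂ v * hd n₁ n₂ e v = fl n₁ n₂ v := by
    unfold hd fl
    linear_combination (fD n₁ n₂ v - fc n₁ n₂ v * xi v) * h0
  by_contra hcon
  push Not at hcon
  have := mul_nonneg_of_nonpos_of_nonpos hc.le hcon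
  linarith

end Pool.Agent.X304.Ell
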