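import Pool.Agent.X304.Ell.Half

set_option autoImplicit false

namespace Pool.Agent.X304.Ell

open Set Real

variable {n₁ n₂ e : ℝ}

/-! ### the case `n₁ n₂ < 0`: the critical curve -/

/-- `l / sin²` is strictly decreasing -/
lemma fl_div_anti (hn : n₁ ^ 2 + n₂ ^ 2 < 1) (hB : n₁ * n₂ < 0) :
    StrictAntiOn (fun x => fl n₁ n₂ x / sin x ^ 2) (Ioo 0 π) := by
  apply strictAntiOn_of_deriv_neg (convex_Ioo 0 π)
  · intro x hx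
    exact (hasDerivAt_fl_div (n₁ := n₁) (n₂ := n₂) (sin_pos' hx).ne').continuousAt.continuousWithinAt
  · intro x hx
    rw [interior_Ioo] at hx
    rw [(hasDerivAt_fl_div (n₁ := n₁) (n₂ := n₂) (sin_pos' hx).ne').deriv]
    have h1 := fa_pos hn x
    have h2 := sin_pos' hx
    apply div_neg_of_neg_of_pos _ (by positivity)
    exact mul_neg_of_pos_of_neg (by positivity) hB

lemma fl_neg_of_lt (hn : n₁ ^ 2 + n₂ ^ 2 < 1) (hB : n₁ * n₂ < 0) {x y : ℝ} (hx : x ∈ Ioo 0 π)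
    (hy : y ∈ Ioo 0 π) (hxy : x < y) (h : fl n₁ n₂ x ≤ 0) : fl n₁ n₂ y < 0 := by
  have h1 := fl_div_anti hn hB hx hy hxy
  simp only at h1
  have h2 := sin_pos' hx
  have h3 := sin_pos' hy
  have h4 : fl n₁ n₂ x / sin x ^ 2 ≤ 0 := div_nonpos_of_nonpos_of_nonneg h (by positivity)
  have h5 : fl n₁ n₂ y / sin y ^ 2 < 0 := h1.trans_le h4
  by_contra hcon
  push Not at hcon
  have : 0 ≤ fl n₁ n₂ y / sin y ^ 2 := by positivity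
  linarith

lemma fl_pos_of_lt (hn : n₁ ^ 2 + n₂ ^ 2 < 1) (hB : n₁ * n₂ < 0) {x y : ℝ} (hx : x ∈ Ioo 0 π)
    (hy : y ∈ Ioo 0 π) (hxy : x < y) (h : 0 ≤ fl n₁ n₂ y) : 0 < fl n₁ n₂ x := by
  by_contra hcon
  push Not at hcon
  have := fl_neg_of_lt hn hB hx hy hxy hcon
  linarith

/-- the special directions -/
lemma special (hn : n₁ ^ 2 + n₂ ^ 2 < 1) (hB : n₁ * n₂ < 0) :
    ∃ vs vb : ℝ, 0 < vs ∧ vs < vb ∧ vb < π ∧ fl n₁ n₂ vs = 0 ∧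
      (∀ v ∈ Ico vs vb, fc n₁ n₂ v < 0) ∧ (∀ v ∈ Ioo vb π, 0 < fc n₁ n₂ v) := by
  have h2 : n₂ ≠ 0 := by rintro rfl; simp at hB
  set q : ℝ := - n₁ / n₂ with hq
  have hqpos : 0 < q := by
    rw [hq, ← mul_div_mul_right _ _ h2]
    exact div_pos (by linarith) (mul_self_pos.2 h2)
  set va := arctan q with hva
  have hva0 : 0 < va := by rw [hva]; exact arctan_pos.2 hqpos
  have hva1 : va < π / 2 := arctan_lt_pi_div_two q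
  have hcos : 0 < cos va := cos_pos_of_mem_Ioo ⟨by linarith, hva1⟩
  have htan : sin va = q * cos va := by
    have : tan va = q := by rw [hva]; exact tan_arctan q
    rw [tan_eq_sin_div_cos] at this
    field_simp at this
    linarith
  have hn1 : n₁ = - q * n₂ := by rw [hq]; field_simp
  have hnu : ∀ v, nu n₁ n₂ v = n₂ * sin (v - va) / cos va := by
    intro v
    rw [eq_div_iff hcos.ne', sin_sub, htan]
    unfold nu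
    rw [hn1]; ring
  have hmu : ∀ v, mu n₁ n₂ v = n₂ * cos (v - va) / cos va := by
    intro v
    rw [eq_div_iff hcos.ne', cos_sub, htan]
    unfold mu
    rw [hn1]; ring
  have hfc : ∀ v, fc n₁ n₂ v = - (n₂ ^ 2 / cos va ^ 2) * (sin (v - va) * cos (v - va)) := by
    intro v
    unfold fc
    rw [hnu, hmu]
    field_simp
  have hkpos : 0 < n₂ ^ 2 / cos va ^ 2 := by positivity
  have hneg : ∀ v ∈ Ioo va (va + π / 2), fc n₁ n₂ v < 0 := by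
    intro v hv
    rw [hfc]
    have h3 : 0 < sin (v - va) := sin_pos_of_pos_of_lt_pi (by linarith [hv.1]) (by linarith [hv.2, pi_pos])
    have h4 : 0 < cos (v - va) := cos_pos_of_mem_Ioo ⟨by linarith [hv.1, pi_pos], by linarith [hv.2]⟩
    have := mul_pos hkpos (mul_pos h3 h4)
    linarith
  have hpos : ∀ v ∈ Ioo (va + π / 2) π, 0 < fc n₁ n₂ v := by
    intro v hv
    rw [hfc]
    have h3 : 0 < sin (v - va) := sin_pos_of_pos_of_lt_pi (by linarith [hv.1, pi_pos]) (by linarith [hv.2])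
    have h4 : cos (v - va) < 0 := cos_neg_of_pi_div_two_lt_of_lt (by linarith [hv.1]) (by linarith [hv.2, pi_pos])
    have h5 := mul_pos hkpos (mul_pos_of_neg_of_neg h4 (by linarith : - sin (v - va) < 0))
    nlinarith [h5]
  -- values of `l`
  have hla : 0 < fl n₁ n₂ va := by
    have h3 : nu n₁ n₂ va = 0 := by rw [hnu]; simp
    have h4 := nu_mu_sq n₁ n₂ va
    have h5 : 0 < mu n₁ n₂ va ^ 2 := by
      rw [h3] at h4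
      have : 0 < n₂ ^ 2 := by positivity
      nlinarith [sq_nonneg n₁]
    unfold fl fc fa fD
    rw [h3]
    nlinarith
  have hlb : fl n₁ n₂ (va + π / 2) < 0 := by
    have h3 : mu n₁ n₂ (va + π / 2) = 0 := by rw [hmu]; simp
    have h4 := nu_mu_sq n₁ n₂ (va + π / 2)
    have h6 := fa_pos hn (va + π / 2)
    have h5 : 0 < nu n₁ n₂ (va + π / 2) ^ 2 := by
      rw [h3] at h4
      have : 0 < n₂ ^ 2 := by positivity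
      nlinarith [sq_nonneg n₁]
    have h7 := mul_pos h6 h5
    unfold fl fc fD
    rw [h3]
    nlinarith
  have hcont : ContinuousOn (fl n₁ n₂) (Icc va (va + π / 2)) := by
    intro x hx
    have hx' : x ∈ Ioo 0 π := ⟨by linarith [hx.1], by linarith [hx.2]⟩
    exact (hasDerivAt_fl n₁ n₂ (sin_pos' hx').ne').continuousAt.continuousWithinAt
  have hle : va ≤ va + π / 2 := by linarith [pi_pos]
  obtain ⟨vs, hvs, hvs0⟩ := intermediate_value_Icc' hle hcont ⟨hlb.le, hla.le⟩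
  have h8 : vs ≠ va := by rintro rfl; linarith
  have h9 : vs ≠ va + π / 2 := by rintro rfl; linarith
  have h10 : va < vs := lt_of_le_of_ne hvs.1 (Ne.symm h8)
  have h11 : vs < va + π / 2 := lt_of_le_of_ne hvs.2 h9
  refine ⟨vs, va + π / 2, by linarith, h11, by linarith, hvs0, ?_, hpos⟩
  intro v hv
  exact hneg v ⟨by linarith [hv.1], hv.2⟩

/-- positive root of `G(v, ·)` -/
noncomputable def ep (n₁ n₂ v : ℝ) : ℝ :=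
  (- fc n₁ n₂ v + √(fc n₁ n₂ v ^ 2 - 4 * fl n₁ n₂ v)) / 2

/-- the parameter `1/e` along the critical curve -/
noncomputable def EZ (n₁ n₂ v : ℝ) : ℝ := fa n₁ n₂ v * sin v / ep n₁ n₂ v - cos v

noncomputable def JZ (n₁ n₂ v : ℝ) : ℝ := fJ n₁ n₂ (ep n₁ n₂ v) v

noncomputable def ep' (n₁ n₂ v : ℝ) : ℝ :=
  -(fD n₁ n₂ v * ep n₁ n₂ v + fl' n₁ n₂ v) / (2 * ep n₁ n₂ v + fc n₁ n₂ v)

lemma ep_root {v : ℝ} (h : fl n₁ n₂ v ≤ 0) :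
    ep n₁ n₂ v ^ 2 + fc n₁ n₂ v * ep n₁ n₂ v + fl n₁ n₂ v = 0 := by
  have h1 : 0 ≤ fc n₁ n₂ v ^ 2 - 4 * fl n₁ n₂ v := by nlinarith [sq_nonneg (fc n₁ n₂ v)]
  have h2 := sq_sqrt h1
  unfold ep
  linear_combination h2 / 4

lemma two_ep (v : ℝ) : 2 * ep n₁ n₂ v + fc n₁ n₂ v = √(fc n₁ n₂ v ^ 2 - 4 * fl n₁ n₂ v) := by
  unfold ep; ring

lemma two_ep_pos {v : ℝ} (h : fl n₁ n₂ v < 0) : 0 < 2 * ep n₁ n₂ v + fc n₁ n₂ v := by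
  rw [two_ep]
  apply sqrt_pos.2
  nlinarith [sq_nonneg (fc n₁ n₂ v)]

lemma ep_pos {v : ℝ} (h : fl n₁ n₂ v < 0) : 0 < ep n₁ n₂ v := by
  have h1 := ep_root h.le
  have h2 := two_ep_pos h
  by_contra hcon
  push Not at hcon
  have h3 : 0 < ep n₁ n₂ v + fc n₁ n₂ v := by linarith
  have h4 : ep n₁ n₂ v * (ep n₁ n₂ v + fc n₁ n₂ v) ≤ 0 :=
    mul_nonpos_of_nonpos_of_nonneg hcon h3.le
  nlinarith

lemma ep_add_pos {v : ℝ} (h : fl n₁ n₂ v < 0) : 0 < ep n₁ n₂ v + fc n₁ n₂ v := by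
  have h1 := ep_root h.le
  have h2 := ep_pos h
  by_contra hcon
  push Not at hcon
  have h4 : ep n₁ n₂ v * (ep n₁ n₂ v + fc n₁ n₂ v) ≤ 0 :=
    mul_nonpos_of_nonneg_of_nonpos h2.le hcon
  nlinarith

lemma hasDerivAt_ep {v : ℝ} (hv : v ∈ Ioo 0 π) (h : fl n₁ n₂ v < 0) :
    HasDerivAt (ep n₁ n₂) (ep' n₁ n₂ v) v := by
  have h1 : fc n₁ n₂ v ^ 2 - 4 * fl n₁ n₂ v ≠ 0 := by nlinarith [sq_nonneg (fc n₁ n₂ v)]
  have h2 := ((hasDerivAt_fc n₁ n₂ v).neg.add ((((hasDerivAt_fc n₁ n₂ v).pow 2).sub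
    ((hasDerivAt_fl n₁ n₂ (sin_pos' hv).ne').const_mul 4)).sqrt h1)).div_const 2
  refine HasDerivAt.congr_deriv h2 ?_
  have h3 := two_ep_pos h
  have h4 := two_ep (n₁ := n₁) (n₂ := n₂) v
  unfold ep'
  rw [h4]
  have h5 : √(fc n₁ n₂ v ^ 2 - 4 * fl n₁ n₂ v) ≠ 0 := by rw [← h4]; exact h3.ne'
  have h6 : ep n₁ n₂ v = (√(fc n₁ n₂ v ^ 2 - 4 * fl n₁ n₂ v) - fc n₁ n₂ v) / 2 := by linarith
  rw [h6]
  simp only [Pi.sub_apply, Pi.pow_apply]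
  push_cast
  field_simp
  ring

lemma EZ_deriv (hn : n₁ ^ 2 + n₂ ^ 2 < 1) {v : ℝ} (hv : v ∈ Ioo 0 π) (h : fl n₁ n₂ v < 0) :
    HasDerivAt (EZ n₁ n₂) (3 * sin v / (ep n₁ n₂ v ^ 2 * (2 * ep n₁ n₂ v + fc n₁ n₂ v))
      * JZ n₁ n₂ v) v := by
  have hp := ep_pos h
  have h2p := two_ep_pos h
  have hs := (sin_pos' hv).ne'
  have h1 := (((hasDerivAt_fa n₁ n₂ v).mul (hasDerivAt_sin v)).div (hasDerivAt_ep hv h) hp.ne').sub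
    (hasDerivAt_cos v)
  refine HasDerivAt.congr_deriv h1 ?_
  simp only [Pi.mul_apply]
  have h3 : (2 * ep n₁ n₂ v + fc n₁ n₂ v) * ep' n₁ n₂ v + (fD n₁ n₂ v * ep n₁ n₂ v
      + (4 * fa n₁ n₂ v * fc n₁ n₂ v + 2 * fc n₁ n₂ v ^ 2 * xi v + fa n₁ n₂ v * fD n₁ n₂ v * xi v
        - fa n₁ n₂ v * fc n₁ n₂ v * (1 + xi v ^ 2))) = 0 := by
    unfold ep'
    rw [mul_div_cancel₀ _ h2p.ne']
    unfold fl'
    ring
  have h4 := alg4 _ _ _ _ _ _ h3 (by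
    have := ep_root h.le
    unfold fl at this
    exact this)
  have h5 : JZ n₁ n₂ v = ep n₁ n₂ v * (ep n₁ n₂ v + fc n₁ n₂ v) ^ 2
      + fa n₁ n₂ v ^ 2 * (fc n₁ n₂ v * (1 - xi v ^ 2) + xi v * fD n₁ n₂ v) := by
    unfold JZ fJ
    rw [mul_div_assoc, const_B hs]
  have h6 : cos v = xi v * sin v := by unfold xi; field_simp
  rw [h5, h6]
  have hp' := hp.ne'
  have h2p' := h2p.ne'
  generalize ep n₁ n₂ v = η at *
  generalize ep' n₁ n₂ v = η' at *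
  generalize fa n₁ n₂ v = a at *
  generalize fc n₁ n₂ v = c at *
  generalize fD n₁ n₂ v = D at *
  generalize xi v = x at *
  generalize sin v = S at *
  field_simp
  linear_combination h4

noncomputable def JZ' (n₁ n₂ v : ℝ) : ℝ :=
  ep' n₁ n₂ v * (ep n₁ n₂ v + fc n₁ n₂ v) ^ 2
    + ep n₁ n₂ v * (2 * (ep n₁ n₂ v + fc n₁ n₂ v) * (ep' n₁ n₂ v + fD n₁ n₂ v))
    + (4 * fa n₁ n₂ v * fc n₁ n₂ v * (n₁ * n₂ / sin v ^ 2)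
      - 2 * fa n₁ n₂ v ^ 2 * (n₁ * n₂ / sin v ^ 2) * xi v)

lemma hasDerivAt_JZ {v : ℝ} (hv : v ∈ Ioo 0 π) (h : fl n₁ n₂ v < 0) :
    HasDerivAt (JZ n₁ n₂) (JZ' n₁ n₂ v) v := by
  have hs := (sin_pos' hv).ne'
  have hep := hasDerivAt_ep hv h
  have h1 := (hep.mul ((hep.add (hasDerivAt_fc n₁ n₂ v)).pow 2)).add
    ((((hasDerivAt_fa n₁ n₂ v).pow 2).mul_const (n₁ * n₂)).div ((hasDerivAt_sin v).pow 2)
      (pow_ne_zero 2 hs))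
  refine HasDerivAt.congr_deriv h1 ?_
  unfold JZ' xi
  simp only [Pi.add_apply, Pi.pow_apply]
  push_cast
  field_simp
  ring

lemma JZ'_zero (hn : n₁ ^ 2 + n₂ ^ 2 < 1) {v : ℝ} (hv : v ∈ Ioo 0 π) (h : fl n₁ n₂ v < 0)
    (hJ : JZ n₁ n₂ v = 0) :
    ∃ K : ℝ, 0 < K ∧ JZ' n₁ n₂ v = - K * fc n₁ n₂ v := by
  have hp := ep_pos h
  have h2p := two_ep_pos h
  have hap := ep_add_pos h
  have hs := (sin_pos' hv).ne'
  have ha := fa_pos hn v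
  have h3 : (2 * ep n₁ n₂ v + fc n₁ n₂ v) * ep' n₁ n₂ v + (fD n₁ n₂ v * ep n₁ n₂ v
      + (4 * fa n₁ n₂ v * fc n₁ n₂ v + 2 * fc n₁ n₂ v ^ 2 * xi v + fa n₁ n₂ v * fD n₁ n₂ v * xi v
        - fa n₁ n₂ v * fc n₁ n₂ v * (1 + xi v ^ 2))) = 0 := by
    unfold ep'
    rw [mul_div_cancel₀ _ h2p.ne']
    unfold fl'
    ring
  have hG : ep n₁ n₂ v ^ 2 + fc n₁ n₂ v * ep n₁ n₂ v + (fc n₁ n₂ v ^ 2
      - fa n₁ n₂ v * fD n₁ n₂ v + fa n₁ n₂ v * fc n₁ n₂ v * xi v) = 0 := by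
    have := ep_root h.le
    unfold fl at this
    exact this
  have hB := const_B (n₁ := n₁) (n₂ := n₂) hs
  have hJ1 : fa n₁ n₂ v ^ 2 * (n₁ * n₂ / sin v ^ 2)
      + ep n₁ n₂ v * (ep n₁ n₂ v + fc n₁ n₂ v) ^ 2 = 0 := by
    unfold JZ fJ at hJ
    rw [mul_div_assoc] at hJ
    linarith
  have hJ2 : fa n₁ n₂ v * xi v * (ep n₁ n₂ v ^ 2 + fc n₁ n₂ v * ep n₁ n₂ v + fc n₁ n₂ v ^ 2)
      + fa n₁ n₂ v ^ 2 * fc n₁ n₂ v + ep n₁ n₂ v * (ep n₁ n₂ v + fc n₁ n₂ v) ^ 2 = 0 := by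
    rw [hB] at hJ1
    linear_combination hJ1 + fa n₁ n₂ v * xi v * hG
  have key := alg3 (fa n₁ n₂ v) (fc n₁ n₂ v) (fD n₁ n₂ v) (xi v) (ep n₁ n₂ v) (ep' n₁ n₂ v)
    (n₁ * n₂ / sin v ^ 2) h3 hJ1 (by linear_combination -hG) hJ2
  have hP : 0 < ep n₁ n₂ v ^ 2 + fc n₁ n₂ v * ep n₁ n₂ v + fc n₁ n₂ v ^ 2 := by
    nlinarith [sq_nonneg (ep n₁ n₂ v + 2 * fc n₁ n₂ v), sq_nonneg (ep n₁ n₂ v)]
  refine ⟨5 * ep n₁ n₂ v * (ep n₁ n₂ v + fc n₁ n₂ v) ^ 2 * (fa n₁ n₂ v ^ 2 + ep n₁ n₂ v ^ 2)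
    / (fa n₁ n₂ v * (ep n₁ n₂ v ^ 2 + fc n₁ n₂ v * ep n₁ n₂ v + fc n₁ n₂ v ^ 2)),
    by positivity, ?_⟩
  have h4 : JZ' n₁ n₂ v = ep' n₁ n₂ v * (ep n₁ n₂ v + fc n₁ n₂ v) ^ 2
      + 2 * ep n₁ n₂ v * (ep n₁ n₂ v + fc n₁ n₂ v) * (ep' n₁ n₂ v + fD n₁ n₂ v)
      + 4 * fa n₁ n₂ v * fc n₁ n₂ v * (n₁ * n₂ / sin v ^ 2)
      - 2 * fa n₁ n₂ v ^ 2 * (n₁ * n₂ / sin v ^ 2) * xi v := by
    unfold JZ'; ring
  rw [← h4] at key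
  have ha' := ha.ne'
  have hP' := hP.ne'
  have h2p' := h2p.ne'
  have h5 : fa n₁ n₂ v * (ep n₁ n₂ v ^ 2 + fc n₁ n₂ v * ep n₁ n₂ v + fc n₁ n₂ v ^ 2) * JZ' n₁ n₂ v
      = - (5 * fc n₁ n₂ v * ep n₁ n₂ v * (ep n₁ n₂ v + fc n₁ n₂ v) ^ 2
        * (fa n₁ n₂ v ^ 2 + ep n₁ n₂ v ^ 2)) := by
    apply mul_left_cancel₀ h2p'
    linear_combination key
  rw [eq_comm, ← sub_eq_zero]
  have h6 : (-(5 * ep n₁ n₂ v * (ep n₁ n₂ v + fc n₁ n₂ v) ^ 2 * (fa n₁ n₂ v ^ 2 + ep n₁ n₂ v ^ 2)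
    / (fa n₁ n₂ v * (ep n₁ n₂ v ^ 2 + fc n₁ n₂ v * ep n₁ n₂ v + fc n₁ n₂ v ^ 2))) * fc n₁ n₂ v
    - JZ' n₁ n₂ v) = (-(5 * fc n₁ n₂ v * ep n₁ n₂ v * (ep n₁ n₂ v + fc n₁ n₂ v) ^ 2
        * (fa n₁ n₂ v ^ 2 + ep n₁ n₂ v ^ 2)) - fa n₁ n₂ v * (ep n₁ n₂ v ^ 2
        + fc n₁ n₂ v * ep n₁ n₂ v + fc n₁ n₂ v ^ 2) * JZ' n₁ n₂ v) / (fa n₁ n₂ v *
        (ep n₁ n₂ v ^ 2 + fc n₁ n₂ v * ep n₁ n₂ v + fc n₁ n₂ v ^ 2)) := by
    field_simp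
  rw [h6, h5]
  simp

end Pool.Agent.X304.Ell
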