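import Pool.Agent.X304.Ell.Neg

set_option autoImplicit false

namespace Pool.Agent.X304.Ell

open Set Real

variable {n₁ n₂ e : ℝ}

/-- factorisation of `G` where `l ≤ 0` -/
lemma fG_factor {v : ℝ} (h : fl n₁ n₂ v ≤ 0) :
    fG n₁ n₂ e v = (et n₁ n₂ e v - ep n₁ n₂ v) * (et n₁ n₂ e v + (ep n₁ n₂ v + fc n₁ n₂ v)) := by
  have := ep_root h
  unfold fG
  linear_combination this

lemma fG_zero_iff (he0 : 0 < e) (he1 : e < 1) (hn : n₁ ^ 2 + n₂ ^ 2 < 1) {v : ℝ}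
    (hv : v ∈ Ioo 0 π) (h : fl n₁ n₂ v < 0) (h0 : fG n₁ n₂ e v = 0) : EZ n₁ n₂ v = 1 / e := by
  rw [fG_factor h.le] at h0
  have h1 := et_pos he0 he1 hn hv
  have h2 := ep_add_pos h
  have h3 := ep_pos h
  rcases mul_eq_zero.1 h0 with h4 | h4
  · have h5 : et n₁ n₂ e v = ep n₁ n₂ v := by linarith
    have h6 := w_pos he0 he1 v
    have h7 := sin_pos' hv
    have h8 := fa_pos hn v
    unfold EZ
    rw [← h5]
    unfold et
    have he := he0.ne'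
    field_simp
    ring
  · linarith

/-- critical points with `τ ≤ 0` are down-crossings of `G` -/
lemma gd_neg (he0 : 0 < e) (he1 : e < 1) (hn : n₁ ^ 2 + n₂ ^ 2 < 1) (hB : n₁ * n₂ < 0) {v : ℝ}
    (hv : v ∈ Ioo 0 π) (h0 : fG n₁ n₂ e v = 0) (h : et n₁ n₂ e v + fc n₁ n₂ v ≤ 0) :
    gd n₁ n₂ e v < 0 := by
  rw [gd_zero he0 he1 hn hv h0]
  have ha := fa_pos hn v
  have h1 := alg2 (fa n₁ n₂ v) (fc n₁ n₂ v) (fD n₁ n₂ v) (xi v) (et n₁ n₂ e v) ha (fd_pos hn v)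
    (fdelta_pos hn v) (et_pos he0 he1 hn hv) h (by
      unfold fG fl at h0
      exact h0)
  have h2 : fJ n₁ n₂ (et n₁ n₂ e v) v < 0 := by
    unfold fJ
    rw [mul_div_assoc, const_B (sin_pos' hv).ne']
    exact h1
  exact mul_neg_of_pos_of_neg (by positivity) h2

/-- where `l ≥ 0`, zeros of `G` have `τ ≤ 0` -/
lemma add_nonpos_of_fl_nonneg (he0 : 0 < e) (he1 : e < 1) (hn : n₁ ^ 2 + n₂ ^ 2 < 1) {v : ℝ}
    (hv : v ∈ Ioo 0 π) (h0 : fG n₁ n₂ e v = 0) (h : 0 ≤ fl n₁ n₂ v) :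
    et n₁ n₂ e v + fc n₁ n₂ v ≤ 0 := by
  have h1 := et_pos he0 he1 hn hv
  by_contra hcon
  push Not at hcon
  have := mul_pos h1 hcon
  unfold fG at h0
  nlinarith

theorem half_neg_G (he0 : 0 < e) (he1 : e < 1) (hn : n₁ ^ 2 + n₂ ^ 2 < 1) (hB : n₁ * n₂ < 0) :
    AtMost 3 {v | v ∈ Ioo 0 π ∧ fG n₁ n₂ e v = 0} := by
  obtain ⟨vs, vb, h0s, hsb, hbp, hls, hcneg, hcpos⟩ := special hn hB
  have hvs : vs ∈ Ioo 0 π := ⟨h0s, hsb.trans hbp⟩
  have hmem : ∀ v, vs < v → v < π → v ∈ Ioo 0 π := fun v h1 h2 => ⟨h0s.trans h1, h2⟩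
  have hlneg : ∀ v, vs < v → v < π → fl n₁ n₂ v < 0 := fun v h1 h2 =>
    fl_neg_of_lt hn hB hvs (hmem v h1 h2) h1 hls.le
  -- the sign pattern of `JZ`
  obtain ⟨m1, hm1, hJ1, hJ2⟩ := upcross_pattern (α := vs) (β := vb) hsb.le
    (f := JZ n₁ n₂) (f' := JZ' n₁ n₂)
    (fun x hx => hasDerivAt_JZ (hmem x hx.1 (hx.2.trans hbp)) (hlneg x hx.1 (hx.2.trans hbp)))
    (by
      intro x hx h0
      obtain ⟨K, hK, hK2⟩ := JZ'_zero hn (hmem x hx.1 (hx.2.trans hbp))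
        (hlneg x hx.1 (hx.2.trans hbp)) h0
      rw [hK2]
      have := hcneg x ⟨hx.1.le, hx.2⟩
      nlinarith)
  obtain ⟨m2, hm2, hJ3, hJ4⟩ := upcross_pattern (α := vb) (β := π) hbp.le
    (f := fun x => - JZ n₁ n₂ x) (f' := fun x => - JZ' n₁ n₂ x)
    (fun x hx => (hasDerivAt_JZ (hmem x (hsb.trans hx.1) hx.2)
      (hlneg x (hsb.trans hx.1) hx.2)).neg)
    (by
      intro x hx h0
      have h0' : JZ n₁ n₂ x = 0 := by
        have : - JZ n₁ n₂ x = 0 := h0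
        linarith
      obtain ⟨K, hK, hK2⟩ := JZ'_zero hn (hmem x (hsb.trans hx.1) hx.2)
        (hlneg x (hsb.trans hx.1) hx.2) h0'
      rw [hK2]
      have := hcpos x hx
      nlinarith)
  -- derivative factor
  have hfac : ∀ v, vs < v → v < π →
      0 < 3 * sin v / (ep n₁ n₂ v ^ 2 * (2 * ep n₁ n₂ v + fc n₁ n₂ v)) := by
    intro v h1 h2
    have h3 := ep_pos (hlneg v h1 h2)
    have h4 := two_ep_pos (hlneg v h1 h2)
    have h5 := sin_pos' (hmem v h1 h2)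
    positivity
  have hEd : ∀ v, vs < v → v < π → HasDerivAt (EZ n₁ n₂)
      (3 * sin v / (ep n₁ n₂ v ^ 2 * (2 * ep n₁ n₂ v + fc n₁ n₂ v)) * JZ n₁ n₂ v) v :=
    fun v h1 h2 => EZ_deriv hn (hmem v h1 h2) (hlneg v h1 h2)
  -- continuity at `vs`
  have hcs : fc n₁ n₂ vs < 0 := hcneg vs ⟨le_rfl, hsb⟩
  have heps : ep n₁ n₂ vs = - fc n₁ n₂ vs := by
    unfold ep
    rw [hls, mul_zero, sub_zero, sqrt_sq_eq_abs, abs_of_neg hcs]
    ring
  have hEs : ContinuousAt (EZ n₁ n₂) vs := by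
    have h1 : ContinuousAt (ep n₁ n₂) vs := by
      have h2 := (hasDerivAt_fc n₁ n₂ vs).continuousAt
      have h3 := (hasDerivAt_fl n₁ n₂ (sin_pos' hvs).ne').continuousAt
      exact (h2.neg.add ((h2.pow 2).sub (h3.const_mul 4)).sqrt).div_const 2
    have h2 := (hasDerivAt_fa n₁ n₂ vs).continuousAt
    exact ((h2.mul continuous_sin.continuousAt).div h1 (by rw [heps]; linarith)).sub
      continuous_cos.continuousAt
  have hcont : ContinuousOn (EZ n₁ n₂) (Ico vs π) := by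
    intro x hx
    rcases hx.1.eq_or_lt with h | h
    · rw [← h]; exact hEs.continuousWithinAt
    · exact (hEd x h hx.2).continuousAt.continuousWithinAt
  -- first piece
  have hm1π : m1 < π := hm1.2.trans_lt hbp
  have hanti1 : StrictAntiOn (EZ n₁ n₂) (Icc vs m1) := by
    apply strictAntiOn_of_deriv_neg (convex_Icc _ _)
    · exact hcont.mono fun x hx => ⟨hx.1, hx.2.trans_lt hm1π⟩
    · intro x hx
      rw [interior_Icc] at hx
      rw [(hEd x hx.1 (hx.2.trans hm1π)).deriv]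
      exact mul_neg_of_pos_of_neg (hfac x hx.1 (hx.2.trans hm1π)) (hJ1 x hx)
  have hmono2 : StrictMonoOn (EZ n₁ n₂) (Icc m1 vb) := by
    apply strictMonoOn_of_deriv_pos (convex_Icc _ _)
    · exact hcont.mono fun x hx => ⟨hm1.1.trans hx.1, hx.2.trans_lt hbp⟩
    · intro x hx
      rw [interior_Icc] at hx
      have h1 : vs < x := hm1.1.trans_lt hx.1
      have h2 : x < π := hx.2.trans hbp
      rw [(hEd x h1 h2).deriv]
      exact mul_pos (hfac x h1 h2) (hJ2 x hx)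
  have hmono3 : StrictMonoOn (EZ n₁ n₂) (Icc vb m2 ∩ Iio π) := by
    apply strictMonoOn_of_deriv_pos ((convex_Icc _ _).inter (convex_Iio _))
    · exact hcont.mono fun x hx => ⟨hsb.le.trans hx.1.1, hx.2⟩
    · intro x hx
      rw [interior_inter, interior_Icc, interior_Iio] at hx
      have h1 : vs < x := hsb.trans hx.1.1
      rw [(hEd x h1 hx.2).deriv]
      have := hJ3 x hx.1
      exact mul_pos (hfac x h1 hx.2) (by linarith)
  have hanti4 : StrictAntiOn (EZ n₁ n₂) (Ico m2 π) := by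
    apply strictAntiOn_of_deriv_neg (convex_Ico _ _)
    · exact hcont.mono fun x hx => ⟨hsb.le.trans (hm2.1.trans hx.1), hx.2⟩
    · intro x hx
      rw [interior_Ico] at hx
      have h1 : vs < x := hsb.trans_le (hm2.1.trans hx.1.le)
      rw [(hEd x h1 hx.2).deriv]
      have := hJ4 x hx
      exact mul_neg_of_pos_of_neg (hfac x h1 hx.2) (by linarith)
  -- counting on the pieces
  have hc1 : AtMost 1 {v | v ∈ Ioc vs m1 ∧ fG n₁ n₂ e v = 0} := by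
    apply atMost_one
    intro x hx y hy hxy
    have h1 := fG_zero_iff he0 he1 hn (hmem x hx.1.1 (hx.1.2.trans_lt hm1π))
      (hlneg x hx.1.1 (hx.1.2.trans_lt hm1π)) hx.2
    have h2 := fG_zero_iff he0 he1 hn (hmem y hy.1.1 (hy.1.2.trans_lt hm1π))
      (hlneg y hy.1.1 (hy.1.2.trans_lt hm1π)) hy.2
    have h3 := hanti1 ⟨hx.1.1.le, hx.1.2⟩ ⟨hy.1.1.le, hy.1.2⟩ hxy
    linarith
  have hc2 : AtMost 1 {v | (vs < v ∧ m1 ≤ v ∧ v ≤ m2 ∧ v < π) ∧ fG n₁ n₂ e v = 0} := by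
    apply atMost_one
    intro x hx y hy hxy
    have h1 := fG_zero_iff he0 he1 hn (hmem x hx.1.1 hx.1.2.2.2) (hlneg x hx.1.1 hx.1.2.2.2) hx.2
    have h2 := fG_zero_iff he0 he1 hn (hmem y hy.1.1 hy.1.2.2.2) (hlneg y hy.1.1 hy.1.2.2.2) hy.2
    have h3 : EZ n₁ n₂ x < EZ n₁ n₂ y := by
      rcases le_or_gt y vb with h4 | h4
      · exact hmono2 ⟨hx.1.2.1, hxy.le.trans h4⟩ ⟨hy.1.2.1, h4⟩ hxy
      · rcases le_or_gt vb x with h5 | h5
        · exact hmono3 ⟨⟨h5, hx.1.2.2.1⟩, hx.1.2.2.2⟩ ⟨⟨h4.le, hy.1.2.2.1⟩, hy.1.2.2.2⟩ hxy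
        · have h6 := hmono2 ⟨hx.1.2.1, h5.le⟩ ⟨hm1.2, le_rfl⟩ h5
          have h7 := hmono3 ⟨⟨le_rfl, hm2.1⟩, hbp⟩ ⟨⟨h4.le, hy.1.2.2.1⟩, hy.1.2.2.2⟩ h4
          exact h6.trans h7
    linarith
  have hc3 : AtMost 1 {v | v ∈ Ico m2 π ∧ fG n₁ n₂ e v = 0} := by
    apply atMost_one
    intro x hx y hy hxy
    have hx1 : vs < x := hsb.trans_le (hm2.1.trans hx.1.1)
    have hy1 : vs < y := hsb.trans_le (hm2.1.trans hy.1.1)
    have h1 := fG_zero_iff he0 he1 hn (hmem x hx1 hx.1.2) (hlneg x hx1 hx.1.2) hx.2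
    have h2 := fG_zero_iff he0 he1 hn (hmem y hy1 hy.1.2) (hlneg y hy1 hy.1.2) hy.2
    have h3 := hanti4 hx.1 hy.1 hxy
    linarith
  -- on `(0, vs]` all zeros are down-crossings
  have hdown : ∀ x ∈ Ioc 0 vs, HasDerivAt (fun t => - fG n₁ n₂ e t) (- gd n₁ n₂ e x) x :=
    fun x hx => (hasDerivAt_gd he0 he1 hn ⟨hx.1, hx.2.trans_lt hvs.2⟩).neg
  have hdown0 : ∀ x ∈ Ioc 0 vs, - fG n₁ n₂ e x = 0 → 0 < - gd n₁ n₂ e x := by
    intro x hx h0
    have hx' : x ∈ Ioo 0 π := ⟨hx.1, hx.2.trans_lt hvs.2⟩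
    have h0' : fG n₁ n₂ e x = 0 := by linarith
    have hl : 0 ≤ fl n₁ n₂ x := by
      rcases hx.2.eq_or_lt with h | h
      · rw [h, hls]
      · exact (fl_pos_of_lt hn hB hx' hvs h hls.ge).le
    have := gd_neg he0 he1 hn hB hx' h0' (add_nonpos_of_fl_nonneg he0 he1 hn hx' h0' hl)
    linarith
  rcases lt_or_ge 0 (fG n₁ n₂ e vs) with hcase | hcase
  · -- no zero in `(0, vs]`
    refine ((hc1.union hc2).union hc3).mono ?_ (by norm_num)
    rintro v ⟨hv, hv0⟩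
    have hvvs : vs < v := by
      by_contra hcon
      push Not at hcon
      rcases hcon.eq_or_lt with h | h
      · rw [h] at hv0; linarith
      · have := upcross_pos_set (ordConnected_Ioc : (Ioc (0:ℝ) vs).OrdConnected) hdown hdown0
          ⟨hv.1, hcon⟩ ⟨h0s, le_rfl⟩ h (by simp [hv0])
        linarith
    rcases le_or_gt v m1 with h1 | h1
    · exact Or.inl (Or.inl ⟨⟨hvvs, h1⟩, hv0⟩)
    · rcases le_or_gt v m2 with h2 | h2
      · exact Or.inl (Or.inr ⟨⟨hvvs, h1.le, h2, hv.2⟩, hv0⟩)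
      · exact Or.inr ⟨⟨h2.le, hv.2⟩, hv0⟩
  · have hc0 : AtMost 1 {v | v ∈ Ioc 0 vs ∧ fG n₁ n₂ e v = 0} := by
      refine (upcross_atMost_set (ordConnected_Ioc : (Ioc (0:ℝ) vs).OrdConnected) hdown hdown0).mono ?_
        le_rfl
      rintro v ⟨hv, hv0⟩
      exact ⟨hv, by simp [hv0]⟩
    -- `E ≥ EZ vs`
    have hE : EZ n₁ n₂ vs ≤ 1 / e := by
      have h1 := et_pos he0 he1 hn hvs
      have h2 : et n₁ n₂ e vs + fc n₁ n₂ vs ≤ 0 := by
        by_contra hcon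
        push Not at hcon
        have := mul_pos h1 hcon
        unfold fG at hcase
        rw [hls] at hcase
        nlinarith
      unfold EZ
      rw [heps]
      have h3 := w_pos he0 he1 vs
      have h4 := fa_pos hn vs
      have h5 := sin_pos' hvs
      have h6 : fa n₁ n₂ vs * (e * sin vs) ≤ - fc n₁ n₂ vs * (1 + e * cos vs) := by
        unfold et at h2
        have h7 : fa n₁ n₂ vs * (e * sin vs) / (1 + e * cos vs) ≤ - fc n₁ n₂ vs := by linarith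
        rwa [div_le_iff₀ h3] at h7
      have h8 : 0 < - fc n₁ n₂ vs := by linarith
      rw [sub_le_iff_le_add, div_le_iff₀ h8]
      have he := he0.ne'
      have h9 : (1 / e + cos vs) * - fc n₁ n₂ vs = (- fc n₁ n₂ vs * (1 + e * cos vs)) / e := by
        field_simp
      rw [h9, le_div_iff₀ he0]
      linarith
    refine ((hc0.union hc2).union hc3).mono ?_ (by norm_num)
    rintro v ⟨hv, hv0⟩
    rcases le_or_gt v vs with h | hvvs
    · exact Or.inl (Or.inl ⟨⟨hv.1, h⟩, hv0⟩)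
    · rcases le_or_gt v m1 with h1 | h1
      · exfalso
        have h2 := fG_zero_iff he0 he1 hn hv (hlneg v hvvs hv.2) hv0
        have h3 := hanti1 ⟨le_rfl, hm1.1⟩ ⟨hvvs.le, h1⟩ hvvs
        linarith
      · rcases le_or_gt v m2 with h2 | h2
        · exact Or.inl (Or.inr ⟨⟨hvvs, h1.le, h2, hv.2⟩, hv0⟩)
        · exact Or.inr ⟨⟨h2.le, hv.2⟩, hv0⟩

theorem half_neg (he0 : 0 < e) (he1 : e < 1) (hn : n₁ ^ 2 + n₂ ^ 2 < 1) (hB : n₁ * n₂ < 0)
    (T : ℝ) : AtMost 4 {v | v ∈ Ioo 0 π ∧ tau n₁ n₂ e v = T} :=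
  tau_atMost he0 he1 hn (half_neg_G he0 he1 hn hB) T

/-- after a critical point with `τ > 0` the function stays positive -/
lemma stay_pos (he0 : 0 < e) (he1 : e < 1) (hn : n₁ ^ 2 + n₂ ^ 2 < 1)
    {c v : ℝ} (hc : c ∈ Ioo 0 π) (hv : v ∈ Ioo 0 π) (hcv : c < v)
    (hl : ∀ x ∈ Ico c π, fl n₁ n₂ x < 0)
    (h : 0 < et n₁ n₂ e c + fc n₁ n₂ c) : 0 < et n₁ n₂ e v + fc n₁ n₂ v := by
  have h1 := (hh_pos_iff he0 he1 hc).2 h
  refine (hh_pos_iff he0 he1 hv).1 ?_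
  refine upcross_pos_set (ordConnected_Ico : (Ico c π).OrdConnected) (f := hh n₁ n₂ e)
    (f' := hd n₁ n₂ e) ?_ ?_ ⟨le_rfl, hc.2⟩ ⟨hcv.le, hv.2⟩ hcv h1.le
  · intro x hx
    exact hasDerivAt_hh he0 ⟨hc.1.trans_le hx.1, hx.2⟩
  · intro x hx h0
    exact hd_pos he0 he1 hn ⟨hc.1.trans_le hx.1, hx.2⟩ h0 (hl x hx)

theorem half_neg_T (he0 : 0 < e) (he1 : e < 1) (hn : n₁ ^ 2 + n₂ ^ 2 < 1) (hB : n₁ * n₂ < 0)
    {T : ℝ} (hT : T < 0) : AtMost 2 {v | v ∈ Ioo 0 π ∧ tau n₁ n₂ e v = T} := by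
  apply atMost_two
  rintro v1 ⟨hv1, ht1⟩ v2 ⟨hv2, ht2⟩ v3 ⟨hv3, ht3⟩ h12 h23
  -- critical points
  have hrolle : ∀ x y, x ∈ Ioo 0 π → y ∈ Ioo 0 π → x < y → tau n₁ n₂ e x = T →
      tau n₁ n₂ e y = T → ∃ c ∈ Ioo x y, fG n₁ n₂ e c = 0 := by
    intro x y hx hy hxy hx0 hy0
    have hsub : Icc x y ⊆ Ioo 0 π := fun t ht =>
      ⟨lt_of_lt_of_le hx.1 ht.1, lt_of_le_of_lt ht.2 hy.2⟩
    obtain ⟨c, hc1, hc2⟩ := exists_hasDerivAt_eq_zero (f := tau n₁ n₂ e) (f' := tau' n₁ n₂ e) hxy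
      (fun t ht => (hasDerivAt_tau' he0 he1 hn (hsub ht)).continuousAt.continuousWithinAt)
      (hx0.trans hy0.symm)
      (fun t ht => hasDerivAt_tau' he0 he1 hn (hsub (Ioo_subset_Icc_self ht)))
    exact ⟨c, hc1, (tau'_zero_iff he0 he1 hn (hsub (Ioo_subset_Icc_self hc1))).1 hc2⟩
  obtain ⟨c1, hc1, hc10⟩ := hrolle v1 v2 hv1 hv2 h12 ht1 ht2
  obtain ⟨c2, hc2, hc20⟩ := hrolle v2 v3 hv2 hv3 h23 ht2 ht3
  have hsub : Icc c1 c2 ⊆ Ioo 0 π := fun t ht =>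
    ⟨hv1.1.trans (hc1.1.trans_le ht.1), (ht.2.trans_lt hc2.2).trans hv3.2⟩
  have hc12 : c1 < c2 := hc1.2.trans hc2.1
  -- some zero has `τ > 0`
  have hex : ∃ c ∈ Icc c1 c2, fG n₁ n₂ e c = 0 ∧ 0 < et n₁ n₂ e c + fc n₁ n₂ c := by
    by_contra hcon
    push Not at hcon
    have h := upcross_atMost_set (ordConnected_Icc : (Icc c1 c2).OrdConnected)
      (f := fun t => - fG n₁ n₂ e t) (f' := fun t => - gd n₁ n₂ e t)
      (fun x hx => (hasDerivAt_gd he0 he1 hn (hsub hx)).neg)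
      (by
        intro x hx h0
        have h0' : fG n₁ n₂ e x = 0 := by
          have : - fG n₁ n₂ e x = 0 := h0
          linarith
        have := gd_neg he0 he1 hn hB (hsub hx) h0' (hcon x hx h0')
        linarith)
    have h2 := h {c1, c2} (by
      intro x hx
      simp only [Finset.coe_insert, Finset.coe_singleton, mem_insert_iff, mem_singleton_iff] at hx
      rcases hx with rfl | rfl
      · exact ⟨⟨le_rfl, hc12.le⟩, by simp [hc10]⟩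
      · exact ⟨⟨hc12.le, le_rfl⟩, by simp [hc20]⟩)
    rw [Finset.card_pair hc12.ne] at h2
    omega
  obtain ⟨c, hc, hc0, hcp⟩ := hex
  have hc' := hsub hc
  have hlc : fl n₁ n₂ c < 0 := by
    have h1 := mul_pos (et_pos he0 he1 hn hc') hcp
    unfold fG at hc0
    nlinarith
  have h3 := stay_pos he0 he1 hn hc' hv3 (hc.2.trans_lt hc2.2) (by
    intro x hx
    rcases hx.1.eq_or_lt with h | h
    · rw [← h]; exact hlc
    · exact fl_neg_of_lt hn hB hc' ⟨hc'.1.trans h, hx.2⟩ h hlc.le) hcp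
  have h4 := (tau_pos_iff he0 he1 hn hv3).2 h3
  linarith

end Pool.Agent.X304.Ell
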