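import Pool.Agent.X304.Ell.Generic

set_option autoImplicit false

namespace Pool.Agent.X304.Ell

open Set Real

lemma sq_eq_one_iff_of_ne_zero' {x : ℝ} (h : x ^ 2 = 1) : x = 1 ∨ x = -1 := by
  have : (x - 1) * (x + 1) = 0 := by linear_combination h
  rcases mul_eq_zero.1 this with h | h
  · left; linarith
  · right; linarith

/-- the equation of normals: at most two solutions far from the evolute -/
lemma trig2 {p g q : ℝ} (hg : 0 < g) (hp : g < p) :
    AtMost 2 {s | s ∈ Ico (-(π / 2)) (3 * π / 2) ∧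
      p * sin s + g * (sin s * cos s) + q * cos s = 0} := by
  set f : ℝ → ℝ := fun s => p * sin s + g * (sin s * cos s) + q * cos s with hf
  set f' : ℝ → ℝ := fun s => p * cos s + g * (cos s * cos s + sin s * (- sin s)) + q * (- sin s)
    with hf'
  have hd : ∀ s, HasDerivAt f (f' s) s := by
    intro s
    exact (((hasDerivAt_sin s).const_mul p).add
      (((hasDerivAt_sin s).mul (hasDerivAt_cos s)).const_mul g)).add
      ((hasDerivAt_cos s).const_mul q)
  have hkey : ∀ s, f s = 0 → 0 < f' s * cos s := by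
    intro s hs
    have h1 : f' s * cos s = p + g * cos s ^ 3 := by
      simp only [hf, hf'] at hs ⊢
      linear_combination (-sin s) * hs + p * (sin_sq_add_cos_sq s)
    rw [h1]
    have h2 := neg_one_le_cos s
    have h3 : -1 ≤ cos s ^ 3 := by nlinarith [sq_nonneg (cos s), sq_nonneg (cos s - 1)]
    nlinarith
  have h1 : AtMost 1 {s | s ∈ Ioo (-(π / 2)) (π / 2) ∧ f s = 0} := by
    apply upcross_atMost (f' := f') (fun x _ => hd x)
    intro x hx h0
    have h2 := hkey x h0
    have h3 : 0 < cos x := cos_pos_of_mem_Ioo hx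
    by_contra hcon
    push Not at hcon
    have := mul_nonpos_of_nonpos_of_nonneg hcon h3.le
    linarith
  have h2 : AtMost 1 {s | s ∈ Ioo (π / 2) (3 * π / 2) ∧ f s = 0} := by
    have := upcross_atMost (α := π / 2) (β := 3 * π / 2) (f := fun s => - f s)
      (f' := fun s => - f' s) (fun x _ => (hd x).neg) (by
        intro x hx h0
        have h0' : f x = 0 := by
          have : - f x = 0 := h0
          linarith
        have h2 := hkey x h0'
        have h3 : cos x < 0 := cos_neg_of_pi_div_two_lt_of_lt hx.1 (by linarith [hx.2])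
        by_contra hcon
        push Not at hcon
        have h4 : 0 ≤ f' x := by linarith
        have := mul_nonpos_of_nonneg_of_nonpos h4 h3.le
        linarith)
    refine this.mono ?_ le_rfl
    rintro s ⟨hs, h0⟩
    exact ⟨hs, by simp [h0]⟩
  refine (h1.union h2).mono ?_ (by norm_num)
  rintro s ⟨hs, h0⟩
  rcases hs.1.eq_or_lt with h | h
  · exfalso
    rw [← h] at h0
    simp only [sin_neg, sin_pi_div_two, cos_neg, cos_pi_div_two, mul_zero, add_zero] at h0
    linarith
  · rcases lt_trichotomy s (π / 2) with h3 | h3 | h3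
    · exact Or.inl ⟨⟨h, h3⟩, h0⟩
    · exfalso
      rw [h3] at h0
      simp only [sin_pi_div_two, cos_pi_div_two, mul_zero, add_zero] at h0
      linarith
    · exact Or.inr ⟨⟨h3, hs.2⟩, h0⟩

lemma trig4 {p g q : ℝ} (hg : g ≠ 0) :
    AtMost 4 {s | s ∈ Ico (-(π / 2)) (3 * π / 2) ∧
      p * sin s + g * (sin s * cos s) + q * cos s = 0} := by
  classical
  intro t ht
  let P : Polynomial ℂ := Polynomial.C (g : ℂ) * Polynomial.X ^ 4
    + Polynomial.C (2 * p + 2 * Complex.I * q) * Polynomial.X ^ 3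
    + Polynomial.C (-2 * p + 2 * Complex.I * q) * Polynomial.X + Polynomial.C (-(g : ℂ))
  have hcoeff : P.coeff 4 = g := by
    simp only [P, Polynomial.coeff_add, Polynomial.coeff_C_mul, Polynomial.coeff_X_pow,
      Polynomial.coeff_X, Polynomial.coeff_C]
    norm_num
  have hP : P ≠ 0 := by
    intro h
    rw [h] at hcoeff
    simp only [Polynomial.coeff_zero] at hcoeff
    exact hg (by exact_mod_cast hcoeff.symm)
  have hdeg : P.natDegree ≤ 4 := by
    simp only [P]
    compute_degree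
  let z : ℝ → ℂ := fun s => (cos s : ℂ) + (sin s : ℂ) * Complex.I
  have hroot : ∀ s, p * sin s + g * (sin s * cos s) + q * cos s = 0 → P.IsRoot (z s) := by
    intro s hs
    have h1 : ((cos s : ℝ) : ℂ) ^ 2 + ((sin s : ℝ) : ℂ) ^ 2 = 1 := by
      have := cos_sq_add_sin_sq s
      exact_mod_cast this
    have h2 : z s ^ 2 - 1 = 2 * Complex.I * (sin s : ℂ) * z s := by
      simp only [z]
      linear_combination h1 - ((sin s : ℝ) : ℂ) ^ 2 * Complex.I_sq
    have h3 : z s ^ 2 + 1 = 2 * (cos s : ℂ) * z s := by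
      simp only [z]
      linear_combination (-1) * h1 + ((sin s : ℝ) : ℂ) ^ 2 * Complex.I_sq
    have h4 : (p : ℂ) * (sin s : ℂ) + (g : ℂ) * ((sin s : ℂ) * (cos s : ℂ))
        + (q : ℂ) * (cos s : ℂ) = 0 := by exact_mod_cast hs
    show P.eval (z s) = 0
    simp only [P, Polynomial.eval_add, Polynomial.eval_mul, Polynomial.eval_C, Polynomial.eval_pow,
      Polynomial.eval_X]
    generalize z s = w at *
    generalize ((cos s : ℝ) : ℂ) = c at *
    generalize ((sin s : ℝ) : ℂ) = S at *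
    linear_combination (g * (w ^ 2 + 1) + 2 * p * w) * h2
      + (2 * g * Complex.I * S * w + 2 * Complex.I * q * w) * h3
      + 4 * Complex.I * w ^ 2 * h4
  have hinj : Set.InjOn z (t : Set ℝ) := by
    intro x hx y hy hxy
    have hx' := (ht hx).1
    have hy' := (ht hy).1
    have h1 := congrArg Complex.re hxy
    have h2 := congrArg Complex.im hxy
    simp only [z, Complex.add_re, Complex.mul_re, Complex.ofReal_re, Complex.ofReal_im,
      Complex.I_re, Complex.I_im, Complex.add_im, Complex.mul_im, mul_zero, mul_one, sub_zero,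
      add_zero, zero_add, zero_mul, sub_self] at h1 h2
    have h3 : cos (x - y) = 1 := by
      rw [cos_sub, h1, h2]
      linarith [sin_sq_add_cos_sq y, sq (sin y), sq (cos y)]
    have h4 := (cos_eq_one_iff_of_lt_of_lt (by linarith [hx'.1, hy'.2]) (by linarith [hx'.2, hy'.1])).1 h3
    linarith
  have hsub : t.image z ⊆ P.roots.toFinset := by
    intro w hw
    obtain ⟨s, hs, rfl⟩ := Finset.mem_image.1 hw
    rw [Multiset.mem_toFinset, Polynomial.mem_roots hP]
    exact hroot s (ht hs).2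
  calc t.card = (t.image z).card := (Finset.card_image_of_injOn hinj).symm
    _ ≤ P.roots.toFinset.card := Finset.card_le_card hsub
    _ ≤ P.roots.card := Multiset.toFinset_card_le _
    _ ≤ P.natDegree := P.card_roots'
    _ ≤ 4 := hdeg

lemma atMost_sq (c : ℝ) : AtMost 2 {t : ℝ | t ^ 2 = c} := by
  refine ((atMost_singleton (√c)).union (atMost_singleton (-√c))).mono ?_ (by norm_num)
  intro t ht
  have h : t ^ 2 = c := ht
  have hc : √c ^ 2 = c := sq_sqrt (by rw [← h]; positivity)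
  have h2 : (t - √c) * (t + √c) = 0 := by linear_combination h - hc
  rcases mul_eq_zero.1 h2 with h3 | h3
  · left; show t = √c; linarith
  · right; show t = -√c; linarith

/-- scalar form of the stationarity equations in the perpendicular case -/
lemma perp_scalar {a e R b C S ct st α1 α2 β1 β2 n₁ n₂ : ℝ} (ha : 0 < a) (he0 : 0 < e)
    (he1 : e < 1) (hR : 0 < R) (hb0 : 0 < b) (hb : b ^ 2 = 1 - e ^ 2) (hCS : C ^ 2 + S ^ 2 = 1)
    (hct : ct ^ 2 + st ^ 2 = 1)
    (h11 : α1 ^ 2 + β1 ^ 2 + n₁ ^ 2 = 1) (h22 : α2 ^ 2 + β2 ^ 2 + n₂ ^ 2 = 1)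
    (h12 : α1 * α2 + β1 * β2 + n₁ * n₂ = 0) (hn : n₁ ^ 2 + n₂ ^ 2 = 1)
    (hS1 : - (a ^ 2 * e * S * (1 + e * C)) - R * ct * (a * S * α1 + a * b * C * α2)
      - R * st * (a * S * β1 + a * b * C * β2) = 0)
    (hS2 : - (a * (e + C)) * (- R * st * α1 + R * ct * β1)
      + a * b * S * (- R * st * α2 + R * ct * β2) = 0) :
    (∃ σ : ℝ, (σ = 1 ∨ σ = -1) ∧ ct = σ * (-n₂ * α1 + n₁ * α2) ∧ st = σ * (-n₂ * β1 + n₁ * β2) ∧
      (a * e - σ * R * n₂) * S + (a * e ^ 2) * (S * C) + (σ * R * n₁ * b) * C = 0) ∨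
    (∃ ε : ℝ, (ε = 1 ∨ ε = -1) ∧ C = - (e + ε * n₁) / (1 + e * (ε * n₁)) ∧
      S = ε * n₂ * b / (1 + e * (ε * n₁)) ∧
      ∃ τ : ℝ, τ ^ 2 = 1 - (a * e * n₂ * b ^ 2 / (R * (1 + e * (ε * n₁)) ^ 2)) ^ 2 ∧
        ct = (a * e * n₂ * b ^ 2 / (R * (1 + e * (ε * n₁)) ^ 2)) * (-n₂ * α1 + n₁ * α2)
          - τ * (-n₂ * β1 + n₁ * β2) ∧
        st = (a * e * n₂ * b ^ 2 / (R * (1 + e * (ε * n₁)) ^ 2)) * (-n₂ * β1 + n₁ * β2)
          + τ * (-n₂ * α1 + n₁ * α2)) := by
  have hC1 : -1 ≤ C := by nlinarith [sq_nonneg S]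
  have hw : 0 < 1 + e * C := by nlinarith
  set x0 := -n₂ * α1 + n₁ * α2 with hx0
  set y0 := -n₂ * β1 + n₁ * β2 with hy0
  have hAB : (n₁ * α1 + n₂ * α2) ^ 2 + (n₁ * β1 + n₂ * β2) ^ 2 = 0 := by
    linear_combination n₁ ^ 2 * h11 + n₂ ^ 2 * h22 + 2 * n₁ * n₂ * h12
      - (n₁ ^ 2 + n₂ ^ 2) * hn
  have hA : n₁ * α1 + n₂ * α2 = 0 := by
    have := sq_nonneg (n₁ * β1 + n₂ * β2)
    have h2 := sq_nonneg (n₁ * α1 + n₂ * α2)
    exact pow_eq_zero_iff (two_ne_zero) |>.1 (by linarith)
  have hB : n₁ * β1 + n₂ * β2 = 0 := by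
    have := sq_nonneg (n₁ * β1 + n₂ * β2)
    have h2 := sq_nonneg (n₁ * α1 + n₂ * α2)
    exact pow_eq_zero_iff (two_ne_zero) |>.1 (by linarith)
  have a1 : α1 = -n₂ * x0 := by rw [hx0]; linear_combination n₁ * hA - α1 * hn
  have a2 : α2 = n₁ * x0 := by rw [hx0]; linear_combination n₂ * hA - α2 * hn
  have b1 : β1 = -n₂ * y0 := by rw [hy0]; linear_combination n₁ * hB - β1 * hn
  have b2 : β2 = n₁ * y0 := by rw [hy0]; linear_combination n₂ * hB - β2 * hn
  have hxy : x0 ^ 2 + y0 ^ 2 = 1 := by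
    rw [hx0, hy0]
    linear_combination n₂ ^ 2 * h11 + n₁ ^ 2 * h22 - 2 * n₁ * n₂ * h12 + hn
  clear_value x0 y0
  rw [a1, a2, b1, b2] at hS1 hS2
  have hfac : (a * R) * ((x0 * st - y0 * ct) * (n₂ * (e + C) + n₁ * (b * S))) = 0 := by
    linear_combination (-1) * hS2
  have hfac' : (x0 * st - y0 * ct) * (n₂ * (e + C) + n₁ * (b * S)) = 0 := by
    rcases mul_eq_zero.1 hfac with h | h
    · exact absurd h (by positivity)
    · exact h
  rcases mul_eq_zero.1 hfac' with h | h
  · left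
    refine ⟨x0 * ct + y0 * st, ?_, ?_, ?_, ?_⟩
    · have h1 : (x0 * ct + y0 * st) ^ 2 = 1 := by
        linear_combination (x0 ^ 2 + y0 ^ 2) * hct + hxy - (x0 * st - y0 * ct) * h
      exact sq_eq_one_iff_of_ne_zero' h1
    · linear_combination (-ct) * hxy - y0 * h
    · linear_combination (-st) * hxy + x0 * h
    · have : a * ((a * e - (x0 * ct + y0 * st) * R * n₂) * S + a * e ^ 2 * (S * C)
        + (x0 * ct + y0 * st) * R * n₁ * b * C) = 0 := by
        linear_combination (-1) * hS1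
      rcases mul_eq_zero.1 this with h1 | h1
      · exact absurd h1 ha.ne'
      · exact h1
  · right
    have hεsq : ((-(e + C) * n₁ + b * S * n₂) / (1 + e * C)) ^ 2 = 1 := by
      rw [div_pow, div_eq_one_iff_eq (by positivity)]
      linear_combination (-(n₂ * (e + C) + n₁ * (b * S))) * h
        + ((e + C) ^ 2 + b ^ 2 * S ^ 2) * hn + S ^ 2 * hb + (1 - e ^ 2) * hCS
    set ε := (-(e + C) * n₁ + b * S * n₂) / (1 + e * C) with hε
    have hε1 : ε * (1 + e * C) = -(e + C) * n₁ + b * S * n₂ := by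
      rw [hε]; field_simp
    have hεn1 : -(e + C) = ε * n₁ * (1 + e * C) := by
      linear_combination (-n₁) * hε1 - n₂ * h + (e + C) * hn
    have hεn2 : b * S = ε * n₂ * (1 + e * C) := by
      linear_combination (-n₂) * hε1 + n₁ * h - (b * S) * hn
    clear_value ε
    have hε2 : ε = 1 ∨ ε = -1 := sq_eq_one_iff_of_ne_zero' hεsq
    have hn1 : (ε * n₁) ^ 2 ≤ 1 := by
      rw [mul_pow, hεsq, one_mul]; nlinarith [sq_nonneg n₂]
    have hDpos : 0 < 1 + e * (ε * n₁) := by
      have := abs_le_of_sq_le_sq' (by rw [one_pow]; exact hn1 : (ε * n₁) ^ 2 ≤ (1:ℝ) ^ 2) (by norm_num)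
      nlinarith [this.1]
    have hD := hDpos.ne'
    have hCeq : C = - (e + ε * n₁) / (1 + e * (ε * n₁)) := by
      rw [eq_div_iff hD]
      linear_combination (-1) * hεn1
    have hDw : (1 + e * C) * (1 + e * (ε * n₁)) = b ^ 2 := by
      linear_combination (-e) * hεn1 - hb
    have hSeq : S = ε * n₂ * b / (1 + e * (ε * n₁)) := by
      rw [eq_div_iff hD]
      apply mul_left_cancel₀ hb0.ne'
      linear_combination (1 + e * (ε * n₁)) * hεn2 + ε * n₂ * hDw
    -- first equation
    have hk : x0 * ct + y0 * st = a * e * n₂ * b ^ 2 / (R * (1 + e * (ε * n₁)) ^ 2) := by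
      rw [eq_div_iff (by positivity)]
      have h1 : -n₂ * S + n₁ * (b * C) = - ε * b := by
        apply mul_left_cancel₀ hD
        have h2 := (eq_div_iff hD).1 hSeq
        have h3 := (eq_div_iff hD).1 hCeq
        linear_combination (-n₂) * h2 + n₁ * b * h3 - ε * b * hn + e * n₁ * b * hεsq
      have h2 : a * e * S * (1 + e * C) = ε * b * (R * (x0 * ct + y0 * st)) := by
        have h3 : a * (a * e * S * (1 + e * C) - ε * b * (R * (x0 * ct + y0 * st))) = 0 := by
          linear_combination (-1) * hS1 - a * R * (x0 * ct + y0 * st) * h1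
        rcases mul_eq_zero.1 h3 with h4 | h4
        · exact absurd h4 ha.ne'
        · linarith
      have hεε : ε * ε = 1 := by rw [← sq]; exact hεsq
      have h5 := (eq_div_iff hD).1 hSeq
      apply mul_left_cancel₀ hb0.ne'
      apply mul_left_cancel₀ (show ε ≠ 0 by rintro rfl; simp at hεε)
      linear_combination (-(1 + e * (ε * n₁)) ^ 2) * h2
        + a * e * (1 + e * (ε * n₁)) * (1 + e * C) * h5 + a * e * ε * n₂ * b * hDw
    refine ⟨ε, hε2, hCeq, hSeq, x0 * st - y0 * ct, ?_, ?_, ?_⟩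
    · rw [← hk]
      linear_combination (x0 ^ 2 + y0 ^ 2) * hct + hxy
    · rw [← hk]
      linear_combination (-ct) * hxy
    · rw [← hk]
      linear_combination (-st) * hxy

end Pool.Agent.X304.Ell
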